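import Pool.Agent.H20.MIC.Frm

/-!
# Labels in the frame of a natural box, in unit coordinates

The frame of the triangular system `Φ` with the sides `2 ^ (-g l)` over the window number `N` of
length `2 ^ (-w)`: the coordinate `0` is the time relative to the window, the coordinates
`1, …, k` are the positions in the box; the box is the unit cube. `inF` writes a polynomial of the
absolute coordinates `0, …, k` in the frame. `near`: the two sides of a label agree on the unit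
cube at the exact time (and on the ball of time).
-/

set_option autoImplicit false

namespace Pool.MIC.Fru

open Finset Real MvPolynomial
open Pool.STAT
open Pool.MIC.Frm (nat)

/-! ### Finitely many variables -/

/-- The polynomial in the first `n` variables. -/
noncomputable def fp (n : ℕ) : PN →ₐ[ℝ] MvPolynomial (Fin n) ℝ :=
  aeval fun l => if h : l < n then X ⟨l, h⟩ else 0

/-- Extension of a point by `0`. -/
def ex {n : ℕ} (u : Fin n → ℝ) (l : ℕ) : ℝ := if h : l < n then u ⟨l, h⟩ else 0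

theorem ex_lt {n : ℕ} (u : Fin n → ℝ) {l : ℕ} (h : l < n) : ex u l = u ⟨l, h⟩ := by
  unfold ex
  rw [dif_pos h]

theorem eval_fp {n : ℕ} (u : Fin n → ℝ) (F : PN) : eval u (fp n F) = eval (ex u) F := by
  unfold fp
  rw [aeval_def, eval₂_eq, map_sum, eval_eq]
  refine Finset.sum_congr rfl fun d _ => ?_
  rw [map_mul, map_prod, algebraMap_eq, eval_C]
  congr 1
  refine Finset.prod_congr rfl fun j _ => ?_
  rw [map_pow]
  congr 1
  unfold ex
  split_ifs with h
  · rw [eval_X]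
  · rw [map_zero]

theorem deg_fp (n : ℕ) (F : PN) : (fp n F).totalDegree ≤ F.totalDegree := by
  unfold fp
  rw [aeval_def, eval₂_eq]
  refine totalDegree_finsetSum_le fun d hd => ?_
  refine (totalDegree_mul _ _).trans ?_
  have h0 : (algebraMap ℝ (MvPolynomial (Fin n) ℝ) (coeff d F)).totalDegree = 0 := by
    rw [algebraMap_eq, totalDegree_C]
  rw [h0, zero_add]
  refine (totalDegree_finsetProd _ _).trans ?_
  refine (Finset.sum_le_sum (g := fun j => d j) fun j _ => ?_).trans (le_totalDegree hd)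
  refine (totalDegree_pow _ _).trans ?_
  calc d j * _ ≤ d j * 1 := by
        refine Nat.mul_le_mul_left _ ?_
        split_ifs
        · exact (totalDegree_X _).le
        · rw [totalDegree_zero]
          exact Nat.zero_le _
    _ = d j := Nat.mul_one _

theorem eval_fp_of {n : ℕ} (b : ℕ → ℝ) {F : PN} (hF : F.vars ⊆ range n) :
    eval (fun l : Fin n => b l) (fp n F) = eval b F := by
  rw [eval_fp]
  refine Pool.SYS35.eval_congr hF fun i hi => ?_
  rw [ex_lt _ hi]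

/-! ### The frame -/

/-- Unit coordinates to natural coordinates. -/
noncomputable def sg (l : ℕ) : PN := if l = 0 then X 0 else C 2 * X l - 1

theorem eval_sg (u : ℕ → ℝ) (l : ℕ) : eval u (sg l) = if l = 0 then u 0 else 2 * u l - 1 := by
  unfold sg
  split_ifs with h
  · rw [eval_X]
  · rw [map_sub, map_mul, eval_C, eval_X, map_one]

theorem deg_sg (l : ℕ) : (sg l).totalDegree ≤ 1 := by
  unfold sg
  split_ifs with h
  · exact (totalDegree_X _).le
  · refine (totalDegree_sub _ _).trans (max_le ?_ ?_)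
    · refine (totalDegree_mul _ _).trans ?_
      rw [totalDegree_C, zero_add]
      exact (totalDegree_X _).le
    · rw [totalDegree_one]
      exact Nat.zero_le _

theorem vars_sg (l : ℕ) : (sg l).vars ⊆ range (l + 1) := by
  unfold sg
  split_ifs with h
  · exact AdxRow.vars_X_le (by omega)
  · refine AdxRow.vars_sub_le (AdxRow.vars_mul_le (AdxRow.vars_C_le _) (AdxRow.vars_X_le (by omega)))
      ?_
    rw [vars_one]
    exact Finset.empty_subset _

/-- The sides with the window in the slot of the time. -/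
def gw (w : ℕ) (g : ℕ → ℕ) : ℕ → ℕ := Function.update g 0 w

/-- Absolute coordinates as polynomials of the relative time and the positions in the box. -/
noncomputable def frm (w N : ℕ) (g : ℕ → ℕ) (Φ : ℕ → PN) (l : ℕ) : PN :=
  bind₁ sg (nuc (gw w g) (atT ((N : ℝ) / 2 ^ w) Φ) l)

/-- The coordinates in the frame. -/
noncomputable def crd (w N : ℕ) (g : ℕ → ℕ) (Φ : ℕ → PN) (b : ℕ → ℝ) (l : ℕ) : ℝ :=
  if l = 0 then 2 ^ w * b 0 - N else (nat g Φ b l + 1) / 2

/-- The point with given coordinates in the frame. -/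
noncomputable def pF (w N : ℕ) (g : ℕ → ℕ) (Φ : ℕ → PN) (u : ℕ → ℝ) (l : ℕ) : ℝ :=
  eval u (frm w N g Φ l)

/-- A polynomial in the frame. -/
noncomputable def inF (n w N : ℕ) (g : ℕ → ℕ) (Φ : ℕ → PN) (F : PN) : MvPolynomial (Fin n) ℝ :=
  fp n (bind₁ (frm w N g Φ) F)

theorem atT_tri {Φ : ℕ → PN} (hΦ : TriN Φ) (t : ℝ) : TriN (atT t Φ) := by
  intro i
  unfold atT
  rcases Nat.eq_zero_or_pos i with rfl | hi
  · rw [Function.update_self, vars_C]
    exact Finset.empty_subset _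
  · rw [Function.update_of_ne (by omega)]
    exact hΦ i

theorem atT_deg {Φ : ℕ → PN} {K m : ℕ} (hΦ : ∀ i < m, (Φ i).totalDegree ≤ K) (t : ℝ) :
    ∀ i < m, (atT t Φ i).totalDegree ≤ K := by
  intro i hi
  unfold atT
  rcases Nat.eq_zero_or_pos i with rfl | hi'
  · rw [Function.update_self, totalDegree_C]
    exact Nat.zero_le _
  · rw [Function.update_of_ne (by omega)]
    exact hΦ i hi

section frame

variable {w N : ℕ} {g : ℕ → ℕ} {Φ : ℕ → PN}

theorem nat_gw (b : ℕ → ℝ) {l : ℕ} (hl : 1 ≤ l) (t : ℝ) :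
    nat (gw w g) (atT t Φ) b l = nat g Φ b l := by
  unfold nat gw atT
  rw [Function.update_of_ne (by omega), Function.update_of_ne (by omega)]

theorem nat_gw0 (b : ℕ → ℝ) (t : ℝ) : nat (gw w g) (atT t Φ) b 0 = 2 ^ w * (b 0 - t) := by
  unfold nat gw atT
  rw [Function.update_self, Function.update_self, eval_C]

theorem pF_eq (u : ℕ → ℝ) : pF w N g Φ u =
    Frm.pt (gw w g) (atT ((N : ℝ) / 2 ^ w) Φ) (fun l => if l = 0 then u 0 else 2 * u l - 1) := by
  funext l
  unfold pF frm Frm.pt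
  rw [AdxRow.evl_bnd]
  congr 1
  refine congrArg (fun v => eval v) ?_
  funext k
  exact eval_sg u k

theorem pF_zero (hΦ : TriN Φ) (u : ℕ → ℝ) : pF w N g Φ u 0 = (N + u 0) / 2 ^ w := by
  rw [pF_eq, Frm.pt_eq (atT_tri hΦ _)]
  unfold atT gw
  rw [Function.update_self, Function.update_self, eval_C, if_pos rfl]
  ring

theorem pF_pos (hΦ : TriN Φ) (u : ℕ → ℝ) {l : ℕ} (hl : 1 ≤ l) :
    pF w N g Φ u l = eval (pF w N g Φ u) (Φ l) + (2 * u l - 1) / 2 ^ g l := by
  rw [pF_eq, Frm.pt_eq (atT_tri hΦ _)]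
  unfold atT gw
  rw [Function.update_of_ne (by omega), Function.update_of_ne (by omega),
    if_neg (show ¬ l = 0 by omega)]

theorem crd_pF (hΦ : TriN Φ) (u : ℕ → ℝ) : crd w N g Φ (pF w N g Φ u) = u := by
  funext l
  unfold crd
  split_ifs with h
  · rw [pF_zero hΦ, h]
    field_simp
    ring
  · unfold nat
    have := pF_pos (w := w) (N := N) (g := g) hΦ u (show 1 ≤ l by omega)
    rw [this]
    field_simp
    ring

theorem pF_crd (hΦ : TriN Φ) (b : ℕ → ℝ) : pF w N g Φ (crd w N g Φ b) = b := by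
  have h1 : (fun l => if l = 0 then crd w N g Φ b 0 else 2 * crd w N g Φ b l - 1) =
      nat (gw w g) (atT ((N : ℝ) / 2 ^ w) Φ) b := by
    funext l
    split_ifs with h
    · rw [h, nat_gw0]
      unfold crd
      rw [if_pos rfl]
      field_simp
    · rw [nat_gw b (by omega)]
      unfold crd
      rw [if_neg h]
      ring
  rw [pF_eq, h1, Frm.pt_nat (atT_tri hΦ _)]

theorem vars_frm (hΦ : TriN Φ) (l : ℕ) : (frm w N g Φ l).vars ⊆ range (l + 1) :=
  AdxRow.vars_bnd (AdxRow.nuc_vars (atT_tri hΦ _) _ l) fun k hk =>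
    (vars_sg k).trans (Finset.range_mono (by omega))

theorem vars_in (hΦ : TriN Φ) {n : ℕ} {F : PN} (hF : F.vars ⊆ range n) :
    (bind₁ (frm w N g Φ) F).vars ⊆ range n :=
  AdxRow.vars_bnd hF fun k hk => (vars_frm hΦ k).trans (Finset.range_mono (by omega))

/-- Values in the frame. -/
theorem eval_inF (hΦ : TriN Φ) {n : ℕ} {F : PN} (hF : F.vars ⊆ range n) (b : ℕ → ℝ) :
    eval (fun l : Fin n => crd w N g Φ b l) (inF n w N g Φ F) = eval b F := by
  unfold inF
  rw [eval_fp_of _ (vars_in hΦ hF), AdxRow.evl_bnd]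
  exact congrArg (fun v => eval v F) (pF_crd hΦ b)

theorem eval_inF' {n : ℕ} (F : PN) (u : Fin n → ℝ) :
    eval u (inF n w N g Φ F) = eval (pF w N g Φ (ex u)) F := by
  unfold inF
  rw [eval_fp, AdxRow.evl_bnd]
  rfl

theorem deg_inF {K K' n : ℕ} (hΦ : TriN Φ) (hK : ∀ i < n, (Φ i).totalDegree ≤ K) {F : PN}
    (hv : F.vars ⊆ range n) (hF : F.totalDegree ≤ K') :
    (inF n w N g Φ F).totalDegree ≤ K' * (K + 1) ^ n := by
  unfold inF
  refine (deg_fp _ _).trans ?_
  have h1 : bind₁ (frm w N g Φ) F =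
      bind₁ sg (bind₁ (nuc (gw w g) (atT ((N : ℝ) / 2 ^ w) Φ)) F) := by
    rw [bind₁_bind₁]
    rfl
  rw [h1]
  have h2 := Dgb.deg_bind (F := bind₁ (nuc (gw w g) (atT ((N : ℝ) / 2 ^ w) Φ)) F) (f := sg)
    (B := 1) fun k _ => deg_sg k
  rw [mul_one] at h2
  exact h2.trans (Frm.deg_fr (atT_tri hΦ _) (atT_deg hK _) hv hF)

end frame

/-- **The two sides of a label in the frame**: they agree on the unit cube, on the ball of time
`2 ^ (-ρ)` around `t`. -/
theorem near (n K : ℕ) : ∃ C : ℝ, 1 ≤ C ∧ ∀ (w N ρ : ℕ) (g : ℕ → ℕ) (Φ Ψ : ℕ → PN) (t : ℝ),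
    TriN Φ → TriN Ψ → (∀ i ≤ n, (Φ i).totalDegree ≤ K) → (∀ i ≤ n, (Ψ i).totalDegree ≤ K) →
    (∀ l, 1 ≤ l → l ≤ n → ∀ b : ℕ → ℝ, |b 0 - t| ≤ 1 / 2 ^ ρ →
      (∀ k, 1 ≤ k → k < l → |b k - eval b (Ψ k)| ≤ 1 / 2 ^ g k) →
      |eval b (Ψ l) - eval b (Φ l)| ≤ 1 / 2 ^ g l) →
    ∀ l, 1 ≤ l → l ≤ n → ∀ u : Fin n → ℝ, (∀ i, 0 ≤ u i ∧ u i ≤ 1) →
      |((N : ℝ) + ex u 0) / 2 ^ w - t| ≤ 1 / 2 ^ ρ →
      |eval u (inF n w N g Φ (Ψ l)) - eval u (inF n w N g Φ (Φ l))| ≤ C / 2 ^ g l := by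
  obtain ⟨C, hC, h⟩ := Frm.agree n K 1 le_rfl
  refine ⟨C, hC, ?_⟩
  intro w N ρ g Φ Ψ t hΦ hΨ dΦ dΨ hag l hl hln u hu ht
  rw [eval_inF', eval_inF']
  obtain ⟨b, hb⟩ : ∃ b, b = pF w N g Φ (ex u) := ⟨_, rfl⟩
  rw [← hb]
  have hb0 : b 0 = (N + ex u 0) / 2 ^ w := by rw [hb, pF_zero hΦ]
  have hcr : ∀ k, 1 ≤ k → nat g Φ b k = 2 * ex u k - 1 := by
    intro k hk
    have e1 : crd w N g Φ b k = ex u k := by rw [hb, crd_pF hΦ]
    unfold crd at e1
    rw [if_neg (by omega)] at e1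
    linarith
  have key := h (gw ρ g) (atT t Ψ) (atT t Φ) (atT_tri hΨ t) (atT_tri hΦ t) ?_ ?_ ?_ ?_ l hln b ?_
  · have e1 := key.2
    unfold atT gw at e1
    rwa [Function.update_of_ne (by omega), Function.update_of_ne (by omega),
      Function.update_of_ne (by omega)] at e1
  · intro i hi
    exact atT_deg (m := n + 1) (fun i hi => dΨ i (by omega)) t i (by omega)
  · intro i hi
    exact atT_deg (m := n + 1) (fun i hi => dΦ i (by omega)) t i (by omega)
  · unfold atT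
    rw [Function.update_self, Function.update_self]
  · intro l' hl' hln' b' hb'
    have e1 := hb' 0 (by omega)
    rw [nat_gw0] at e1
    have e2 := hag l' hl' hln' b' (by
      rw [abs_mul, abs_of_pos (by positivity)] at e1
      rw [le_div_iff₀ (by positivity)]
      linarith) (fun k hk hk' => by
      have e3 := hb' k hk'
      rw [nat_gw b' hk] at e3
      unfold nat at e3
      rw [abs_mul, abs_of_pos (by positivity)] at e3
      rw [le_div_iff₀ (by positivity)]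
      linarith)
    unfold atT gw
    rw [Function.update_of_ne (by omega), Function.update_of_ne (by omega),
      Function.update_of_ne (by omega)]
    exact e2
  · intro i hi
    rcases Nat.eq_zero_or_pos i with rfl | hi'
    · rw [nat_gw0, hb0, abs_mul, abs_of_pos (by positivity)]
      rw [le_div_iff₀ (by positivity)] at ht
      linarith
    · rw [nat_gw b hi', hcr i hi']
      have e1 : ex u i = u ⟨i, by omega⟩ := ex_lt u (by omega)
      have e2 := hu ⟨i, by omega⟩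
      rw [e1, abs_le]
      constructor <;> linarith [e2.1, e2.2]

/-- The coordinates of the sample are in the unit cube. -/
theorem crd_mem {w J T : ℕ} {g : ℕ → ℕ} {Φ : ℕ → PN} {x : ℕ → ℝ} (hwJ : w ≤ J)
    (h0 : x 0 = (T : ℝ) / 2 ^ J) {n : ℕ}
    (h1 : ∀ l, 1 ≤ l → l < n → |x l - eval x (Φ l)| ≤ 1 / 2 ^ g l) {l : ℕ} (hl : l < n) :
    0 ≤ crd w (T / 2 ^ (J - w)) g Φ x l ∧ crd w (T / 2 ^ (J - w)) g Φ x l ≤ 1 := by
  unfold crd
  split_ifs with h
  · have e1 : (2 : ℝ) ^ J = 2 ^ w * 2 ^ (J - w) := by rw [← pow_add]; congr 1; omega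
    have e2 : (2 : ℝ) ^ w * x 0 = T / 2 ^ (J - w) := by
      rw [h0, e1]
      field_simp
    rw [e2]
    have e3 : ((T / 2 ^ (J - w) : ℕ) : ℝ) * 2 ^ (J - w) ≤ T := by
      exact_mod_cast Nat.div_mul_le_self T (2 ^ (J - w))
    have e4 : (T : ℝ) ≤ (((T / 2 ^ (J - w) : ℕ) : ℝ) + 1) * 2 ^ (J - w) := by
      have := Nat.lt_div_mul_add (a := T) (b := 2 ^ (J - w)) (by positivity)
      have h5 : T ≤ (T / 2 ^ (J - w) + 1) * 2 ^ (J - w) := by
        rw [add_mul, one_mul]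
        exact this.le
      exact_mod_cast h5
    have e6 : (0 : ℝ) < 2 ^ (J - w) := by positivity
    constructor
    · rw [sub_nonneg, le_div_iff₀ e6]
      exact e3
    · rw [sub_le_iff_le_add, div_le_iff₀ e6]
      linarith
  · have e1 := h1 l (by omega) hl
    have e2 : |nat g Φ x l| ≤ 1 := by
      unfold nat
      rw [abs_mul, abs_of_pos (by positivity)]
      rw [le_div_iff₀ (by positivity)] at e1
      linarith
    have e3 := abs_le.1 e2
    constructor <;> linarith [e3.1, e3.2]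

/-- The relative time. -/
theorem crd_zero {w J T : ℕ} {g : ℕ → ℕ} {Φ : ℕ → PN} {x : ℕ → ℝ} (hwJ : w ≤ J)
    (h0 : x 0 = (T : ℝ) / 2 ^ J) :
    crd w (T / 2 ^ (J - w)) g Φ x 0 = ((T % 2 ^ (J - w) : ℕ) : ℝ) / 2 ^ (J - w) := by
  unfold crd
  rw [if_pos rfl]
  have e1 : (2 : ℝ) ^ J = 2 ^ w * 2 ^ (J - w) := by rw [← pow_add]; congr 1; omega
  have e2 : (2 : ℝ) ^ w * x 0 = T / 2 ^ (J - w) := by
    rw [h0, e1]
    field_simp
  rw [e2]
  have e3 : (T : ℝ) = (2 : ℝ) ^ (J - w) * ((T / 2 ^ (J - w) : ℕ) : ℝ) +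
      ((T % 2 ^ (J - w) : ℕ) : ℝ) := by
    exact_mod_cast (Nat.div_add_mod T (2 ^ (J - w))).symm
  have e4 : (T : ℝ) / 2 ^ (J - w) = ((T / 2 ^ (J - w) : ℕ) : ℝ) +
      ((T % 2 ^ (J - w) : ℕ) : ℝ) / 2 ^ (J - w) := by
    conv_lhs => rw [e3]
    field_simp
  linarith

/-! ### The exact time -/

/-- The polynomial at the time `t`. -/
noncomputable def fx (t : ℝ) (F : PN) : PN := bind₁ (fun i => if i = 0 then C t else X i) F

theorem eval_fx (t : ℝ) (F : PN) (b : ℕ → ℝ) :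
    eval b (fx t F) = eval (Function.update b 0 t) F := by
  unfold fx
  rw [AdxRow.evl_bnd]
  congr 1
  refine congrArg (fun v => eval v) ?_
  funext i
  rcases Nat.eq_zero_or_pos i with rfl | hi
  · rw [Function.update_self, if_pos rfl, eval_C]
  · rw [Function.update_of_ne (by omega), if_neg (by omega), eval_X]

theorem vars_fx {t : ℝ} {F : PN} {m : ℕ} (hF : F.vars ⊆ range m) : (fx t F).vars ⊆ range m :=
  AdxRow.vars_bnd hF fun k hk => by
    by_cases h : k = 0
    · simp only [if_pos h]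
      exact AdxRow.vars_C_le _
    · simp only [if_neg h]
      exact AdxRow.vars_X_le hk

theorem deg_fx (t : ℝ) (F : PN) : (fx t F).totalDegree ≤ F.totalDegree := by
  unfold fx
  refine (Dgb.deg_bind (B := 1) fun k _ => ?_).trans (le_of_eq (mul_one _))
  by_cases h : k = 0
  · simp only [if_pos h, totalDegree_C]
    exact Nat.zero_le _
  · simp only [if_neg h]
    exact (totalDegree_X _).le

theorem crd_fx {w N : ℕ} {g : ℕ → ℕ} {Φ : ℕ → PN} {t : ℝ} {b : ℕ → ℝ} (hb : b 0 = t) :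
    crd w N g (fun l => fx t (Φ l)) b = crd w N g Φ b := by
  have h1 : Function.update b 0 t = b := by
    rw [← hb]
    exact Function.update_eq_self 0 b
  funext l
  unfold crd nat
  split_ifs with h
  · rfl
  · rw [eval_fx, h1]

theorem pF_fx {w N : ℕ} {g : ℕ → ℕ} {Φ : ℕ → PN} {t : ℝ} {u : ℕ → ℝ} (hΦ : TriN Φ)
    (hu : ((N : ℝ) + u 0) / 2 ^ w = t) :
    pF w N g (fun l => fx t (Φ l)) u = pF w N g Φ u := by
  have hΦ' : TriN (fun l => fx t (Φ l)) := fun l => vars_fx (hΦ l)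
  have h0 : pF w N g (fun l => fx t (Φ l)) u 0 = t := by rw [pF_zero hΦ', hu]
  have h1 : crd w N g Φ (pF w N g (fun l => fx t (Φ l)) u) = u := by
    rw [← crd_fx h0, crd_pF hΦ']
  conv_rhs => rw [← h1]
  rw [pF_crd hΦ]

/-- **The two sides of a label in the frame at the exact time.** -/
theorem near0 (n K : ℕ) : ∃ C : ℝ, 1 ≤ C ∧ ∀ (w N : ℕ) (g : ℕ → ℕ) (Φ Ψ : ℕ → PN) (t : ℝ),
    TriN Φ → TriN Ψ → (∀ i ≤ n, (Φ i).totalDegree ≤ K) → (∀ i ≤ n, (Ψ i).totalDegree ≤ K) →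
    (∀ l, 1 ≤ l → l ≤ n → ∀ b : ℕ → ℝ, b 0 = t →
      (∀ k, 1 ≤ k → k < l → |b k - eval b (Ψ k)| ≤ 1 / 2 ^ g k) →
      |eval b (Ψ l) - eval b (Φ l)| ≤ 1 / 2 ^ g l) →
    ∀ l, 1 ≤ l → l ≤ n → ∀ u : Fin n → ℝ, (∀ i, 0 ≤ u i ∧ u i ≤ 1) →
      ((N : ℝ) + ex u 0) / 2 ^ w = t →
      |eval u (inF n w N g Φ (Ψ l)) - eval u (inF n w N g Φ (Φ l))| ≤ C / 2 ^ g l := by
  obtain ⟨C, hC, h⟩ := near n K
  refine ⟨C, hC, ?_⟩
  intro w N g Φ Ψ t hΦ hΨ dΦ dΨ hag l hl hln u hu ht
  have key := h w N 0 g (fun l => fx t (Φ l)) (fun l => fx t (Ψ l)) t (fun l => vars_fx (hΦ l))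
    (fun l => vars_fx (hΨ l)) (fun i hi => (deg_fx _ _).trans (dΦ i hi))
    (fun i hi => (deg_fx _ _).trans (dΨ i hi)) ?_ l hl hln u hu (by
      rw [ht, sub_self, abs_zero]
      positivity)
  · rw [eval_inF', eval_inF', pF_fx hΦ ht, eval_fx, eval_fx] at key
    have e1 : Function.update (pF w N g Φ (ex u)) 0 t = pF w N g Φ (ex u) := by
      have e2 : pF w N g Φ (ex u) 0 = t := by rw [pF_zero hΦ, ht]
      rw [← e2]
      exact Function.update_eq_self 0 _
    rw [e1] at key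
    rw [eval_inF', eval_inF']
    exact key
  · intro l' hl' hln' b _ hb
    simp only [eval_fx] at hb ⊢
    refine hag l' hl' hln' (Function.update b 0 t) (Function.update_self 0 t b) fun k hk hk' => ?_
    rw [Function.update_of_ne (by omega)]
    exact hb k hk hk'

/-- **The own sheet and the label of the target in the frame of the base**, at the exact time. -/
theorem near_k (k K : ℕ) : ∃ C : ℝ, 1 ≤ C ∧ ∀ (w N P : ℕ) (g : ℕ → ℕ) (Φ Ψ : ℕ → PN)
    (FH FG : PN) (t : ℝ),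
    TriN Φ → TriN Ψ → (∀ i ≤ k, (Φ i).totalDegree ≤ K) → (∀ i ≤ k, (Ψ i).totalDegree ≤ K) →
    FH.vars ⊆ range (k + 1) → FH.totalDegree ≤ K → FG.vars ⊆ range (k + 1) → FG.totalDegree ≤ K →
    (∀ l, 1 ≤ l → l ≤ k → ∀ b : ℕ → ℝ, b 0 = t →
      (∀ j, 1 ≤ j → j < l → |b j - eval b (Ψ j)| ≤ 1 / 2 ^ g j) →
      |eval b (Ψ l) - eval b (Φ l)| ≤ 1 / 2 ^ g l) →
    (∀ b : ℕ → ℝ, b 0 = t → (∀ j, 1 ≤ j → j ≤ k → |b j - eval b (Ψ j)| ≤ 1 / 2 ^ g j) →
      |eval b FG - eval b FH| ≤ 1 / 2 ^ P) →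
    ∀ u : Fin (k + 1) → ℝ, (∀ i, 0 ≤ u i ∧ u i ≤ 1) → ((N : ℝ) + u 0) / 2 ^ w = t →
      |eval u (inF (k + 1) w N g Φ FG) - eval u (inF (k + 1) w N g Φ FH)| ≤ C / 2 ^ P := by
  obtain ⟨C, hC, h⟩ := near0 (k + 1) K
  refine ⟨C, hC, ?_⟩
  intro w N P g Φ Ψ FH FG t tP tΨ dP dΨ vH dH vG dG hag hagN b hb hb0
  have aux : ∀ (Θ : ℕ → PN) (F : PN), TriN Θ → (∀ i ≤ k, (Θ i).totalDegree ≤ K) →
      F.vars ⊆ range (k + 1) → F.totalDegree ≤ K → ∃ Θ' : ℕ → PN, (∀ l ≤ k, Θ' l = Θ l) ∧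
        Θ' (k + 1) = F ∧ TriN Θ' ∧ ∀ i ≤ k + 1, (Θ' i).totalDegree ≤ K := by
    intro Θ F hΘ hd hv hF
    refine ⟨fun l => if l ≤ k then Θ l else if l = k + 1 then F else 0, ?_, ?_, ?_, ?_⟩
    · intro l hl
      exact if_pos hl
    · have e : ¬ k + 1 ≤ k := by omega
      simp only [if_neg e, if_pos]
    · intro l
      by_cases hl : l ≤ k
      · simp only [if_pos hl]
        exact hΘ l
      · by_cases hl' : l = k + 1
        · simp only [if_neg hl, if_pos hl']
          rw [hl']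
          exact hv
        · simp only [if_neg hl, if_neg hl', vars_0]
          exact Finset.empty_subset _
    · intro l hl0
      by_cases hl : l ≤ k
      · simp only [if_pos hl]
        exact hd l hl
      · by_cases hl' : l = k + 1
        · simp only [if_neg hl, if_pos hl']
          exact hF
        · omega
  obtain ⟨Φ', Φle, Φk, tΦ', dΦ'⟩ := aux Φ FH tP dP vH dH
  obtain ⟨Ψ', Ψle, Ψk, tΨ', dΨ'⟩ := aux Ψ FG tΨ dΨ vG dG
  obtain ⟨g', gle, gk⟩ : ∃ g' : ℕ → ℕ, (∀ l ≤ k, g' l = g l) ∧ g' (k + 1) = P :=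
    ⟨Function.update g (k + 1) P, fun l hl => Function.update_of_ne (by omega) _ _,
      Function.update_self _ _ _⟩
  have hex : ex b 0 = b 0 := ex_lt b (Nat.succ_pos k)
  have key := h w N g' Φ' Ψ' t tΦ' tΨ' dΦ' dΨ' ?_ (k + 1) (by omega) le_rfl b hb
    (by rw [hex]; exact hb0)
  · rw [gk, Φk, Ψk] at key
    have e1 : ∀ F : PN, F.vars ⊆ range (k + 1) →
        eval b (inF (k + 1) w N g' Φ' F) = eval b (inF (k + 1) w N g Φ F) := by
      intro F hF
      rw [eval_inF', eval_inF']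
      refine Pool.SYS35.eval_congr hF ?_
      intro i
      induction i using Nat.strong_induction_on with
      | _ i ih =>
        intro hi
        rcases Nat.eq_zero_or_pos i with rfl | hi'
        · rw [pF_zero tΦ', pF_zero tP]
        · rw [pF_pos tΦ' _ hi', pF_pos tP _ hi', Φle i (by omega), gle i (by omega)]
          have e2 := Pool.SYS35.eval_congr (tP i) fun j hj => ih j hj (by omega)
          rw [e2]
    rw [e1 _ vG, e1 _ vH] at key
    exact key
  · intro l hl hln b' hb' hbj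
    rcases Nat.lt_or_ge k l with hl' | hl'
    · obtain rfl : l = k + 1 := by omega
      rw [gk, Φk, Ψk]
      refine hagN b' hb' fun j hj hj' => ?_
      have := hbj j hj (by omega)
      rwa [Ψle j hj', gle j hj'] at this
    · rw [Ψle l hl', Φle l hl', gle l hl']
      refine hag l hl hl' b' hb' fun j hj hj' => ?_
      have := hbj j hj hj'
      rwa [Ψle j (by omega), gle j (by omega)] at this

/-- The time in the window. -/
theorem time_eq {w J T : ℕ} (hwJ : w ≤ J) :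
    (((T / 2 ^ (J - w) : ℕ) : ℝ) + ((T % 2 ^ (J - w) : ℕ) : ℝ) / 2 ^ (J - w)) / 2 ^ w =
      (T : ℝ) / 2 ^ J := by
  have e1 : (2 : ℝ) ^ J = 2 ^ w * 2 ^ (J - w) := by rw [← pow_add]; congr 1; omega
  have e3 : (T : ℝ) = (2 : ℝ) ^ (J - w) * ((T / 2 ^ (J - w) : ℕ) : ℝ) +
      ((T % 2 ^ (J - w) : ℕ) : ℝ) := by
    exact_mod_cast (Nat.div_add_mod T (2 ^ (J - w))).symm
  rw [e1]
  conv_rhs => rw [e3]
  field_simp

end Pool.MIC.Fru
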