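import Pool.Agent.H20.MIC.Uni

/-!
# A small polynomial on a natural box, for a context which is a random variable

`full_sub`: fullness of a part of the coordinates.  `uni_ctx`: the entropic Remez inequality on
natural boxes, where the system and the polynomial are determined by the context on the support.
-/

set_option autoImplicit false

namespace Pool.MIC.Frm

open Finset Real MvPolynomial
open Pool.Agent.H49.Ent Pool.Agent.H32.Dense Pool.STK Pool.STAT
open Pool.BFL (Pb)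

/-- Digits of one bounded coordinate. -/
theorem one_dig {Ω Y : Type} [Fintype Ω] {q : Ω → ℝ} (hq : IsLaw q) (L : ℕ) (f : Ω → ℝ)
    (hf : ∀ ω, 0 < q ω → |f ω| ≤ 1) (y : Ω → Y) :
    CH q (fun ω => ⌊(2 : ℝ) ^ L * f ω⌋) y ≤ L * Real.log 2 + 2 * Real.log 2 := by
  classical
  have h1 := CH_le_card hq.nonneg hq.sum_one (fun ω => ⌊(2 : ℝ) ^ L * f ω⌋) y
    (fun _ => Finset.Icc (-(2 : ℤ) ^ L) (2 ^ L)) (fun ω hω => by
      have e := abs_le.1 (hf ω hω)
      have e0 : (0 : ℝ) < 2 ^ L := by positivity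
      rw [Finset.mem_Icc]
      constructor
      · rw [Int.le_floor]
        push_cast
        nlinarith [e.1]
      · have e1 : ⌊(2 : ℝ) ^ L * f ω⌋ ≤ ⌊(((2 : ℤ) ^ L : ℤ) : ℝ)⌋ := by
          refine Int.floor_le_floor ?_
          push_cast
          nlinarith [e.2]
        rwa [Int.floor_intCast] at e1)
  refine h1.trans ?_
  rw [Ex_const hq.sum_one, Int.card_Icc]
  have e2 : (((2 : ℤ) ^ L + 1 - -(2 : ℤ) ^ L).toNat : ℝ) ≤ (2 : ℝ) ^ (L + 2) := by
    have e3 : (((2 : ℤ) ^ L + 1 - -(2 : ℤ) ^ L).toNat : ℤ) = 2 ^ L + 1 - -2 ^ L := by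
      refine Int.toNat_of_nonneg ?_
      have : (0 : ℤ) < 2 ^ L := by positivity
      linarith
    have e4 : (((2 : ℤ) ^ L + 1 - -(2 : ℤ) ^ L).toNat : ℝ) = 2 ^ L + 1 - -2 ^ L := by
      exact_mod_cast e3
    rw [e4, pow_add]
    have : (1 : ℝ) ≤ 2 ^ L := one_le_pow₀ (by norm_num)
    linarith
  have e5 : (0 : ℝ) < (((2 : ℤ) ^ L + 1 - -(2 : ℤ) ^ L).toNat : ℝ) := by
    have e3 : (((2 : ℤ) ^ L + 1 - -(2 : ℤ) ^ L).toNat : ℤ) = 2 ^ L + 1 - -2 ^ L := by
      refine Int.toNat_of_nonneg ?_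
      have : (0 : ℤ) < 2 ^ L := by positivity
      linarith
    have e4 : (((2 : ℤ) ^ L + 1 - -(2 : ℤ) ^ L).toNat : ℝ) = 2 ^ L + 1 - -2 ^ L := by
      exact_mod_cast e3
    rw [e4]
    have : (1 : ℝ) ≤ 2 ^ L := one_le_pow₀ (by norm_num)
    linarith
  have e6 := Real.log_le_log e5 e2
  rw [Real.log_pow] at e6
  refine e6.trans (le_of_eq ?_)
  push_cast
  ring

/-- Fullness of the first coordinates. -/
theorem full_sub {Ω Y : Type} [Fintype Ω] {q : Ω → ℝ} (hq : IsLaw q) (L : ℕ) (h : Ω → ℕ → ℝ)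
    (y : Ω → Y) {m N : ℕ} (hm : m ≤ N)
    (hb : ∀ ω, 0 < q ω → ∀ i, 1 ≤ i → i ≤ N → |h ω i| ≤ 1) :
    CH q (fun ω (l : Fin N) => ⌊(2 : ℝ) ^ L * h ω (l + 1)⌋) y ≤
      CH q (fun ω (l : Fin m) => ⌊(2 : ℝ) ^ L * h ω (l + 1)⌋) y +
        ((N : ℝ) - m) * (L * Real.log 2 + 2 * Real.log 2) := by
  induction N, hm using Nat.le_induction with
  | base => simp
  | succ N hN ih =>
    have ih' := ih fun ω hω i hi hi' => hb ω hω i hi (by omega)
    have e1 := CH_mono_left (p := q) hq.nonneg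
      (X' := fun ω => ((⌊(2 : ℝ) ^ L * h ω (N + 1)⌋ : ℤ),
        (fun l : Fin N => ⌊(2 : ℝ) ^ L * h ω (l + 1)⌋)))
      (X := fun ω (l : Fin (N + 1)) => ⌊(2 : ℝ) ^ L * h ω (l + 1)⌋) (W := y)
      (fun ω ω' _ _ hh => by
        have h1 := (Prod.ext_iff.1 hh).1
        have h2 := Prod.ext_iff.1 h1
        funext l
        rcases Nat.lt_or_ge (l : ℕ) N with hl | hl
        · exact congrFun h2.2 ⟨l, hl⟩
        · have : (l : ℕ) = N := by have := l.2; omega
          simp only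
          rw [this]
          exact h2.1)
    have e2 := CH_subadd hq.nonneg (fun ω => (⌊(2 : ℝ) ^ L * h ω (N + 1)⌋ : ℤ))
      (fun ω (l : Fin N) => ⌊(2 : ℝ) ^ L * h ω (l + 1)⌋) y
    have e3 := one_dig hq L (fun ω => h ω (N + 1)) (fun ω hω => hb ω hω _ (by omega) le_rfl) y
    push_cast at *
    nlinarith

/-- **The entropic Remez inequality on natural boxes, context form.** -/
theorem uni_ctx (N K : ℕ) (R : ℝ) (hR : 0 ≤ R) : ∃ C : ℝ, 1 ≤ C ∧
    ∀ m ≤ N, ∀ (Ω Y : Type) [Fintype Ω] (q : Ω → ℝ) (L : ℕ) (y : Ω → Y) (g : ℕ → ℕ)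
      (Ψ : Ω → ℕ → PN) (F : Ω → PN) (x : Ω → ℕ → ℝ) (τ θ η : ℝ),
      IsLaw q → Det q y (fun ω => x ω 0) → Det q y Ψ → Det q y F →
      (∀ ω, 0 < q ω → TriN (Ψ ω)) → (∀ ω, 0 < q ω → ∀ i, (Ψ ω i).totalDegree ≤ K) →
      (∀ ω, 0 < q ω → (F ω).vars ⊆ range (m + 1)) → (∀ ω, 0 < q ω → (F ω).totalDegree ≤ K) →
      0 < τ → 0 ≤ θ → 0 < η → η ≤ 1 →
      (∀ ω, 0 < q ω → ∀ i, 1 ≤ i → i ≤ N → |nat g (Ψ ω) (x ω) i| ≤ 1) →
      N * (L * Real.log 2) - θ ≤
        CH q (fun ω (i : Fin N) => ⌊(2 : ℝ) ^ L * nat g (Ψ ω) (x ω) (i + 1)⌋) y →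
      C * (θ + 1) / η ≤ L * Real.log 2 →
      (∀ ω, 0 < q ω → |eval (x ω) (F ω)| ≤ τ) →
      Pb q (fun ω => ¬ ∀ b : ℕ → ℝ, b 0 = x ω 0 →
        (∀ i, 1 ≤ i → i ≤ m → |nat g (Ψ ω) b i| ≤ R) →
        |eval b (F ω)| ≤ Real.exp (C * (θ + 1) / η) * τ) ≤ η := by
  classical
  choose C hC h using fun m => uni_fr m K R hR
  have hl2 : 0 ≤ Real.log 2 := Real.log_nonneg (by norm_num)
  set C' : ℝ := (∑ m ∈ range (N + 1), C m) * (N * (2 * Real.log 2) + 1) with hC'
  have hN0 : (0 : ℝ) ≤ N * (2 * Real.log 2) := by positivity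
  have hCm : ∀ m ≤ N, C m ≤ ∑ m ∈ range (N + 1), C m := fun m hm =>
    Finset.single_le_sum (f := C) (fun i _ => by linarith [hC i]) (mem_range.2 (by omega))
  have hS1 : 1 ≤ ∑ m ∈ range (N + 1), C m := (hC 0).trans (hCm 0 (Nat.zero_le _))
  refine ⟨C', by rw [hC']; nlinarith, ?_⟩
  intro m hm Ω Y _ q L y g Ψ F x τ θ η hq dT dΨ dF tΨ gΨ vF gF hτ hθ hη hη1 h1 hH hL hF
  have hq0 := hq.nonneg
  have hcmp : C m * (θ + N * (2 * Real.log 2) + 1) ≤ C' * (θ + 1) := by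
    rw [hC']
    have h2 : θ + N * (2 * Real.log 2) + 1 ≤ (N * (2 * Real.log 2) + 1) * (θ + 1) := by nlinarith
    calc C m * (θ + N * (2 * Real.log 2) + 1)
        ≤ (∑ m ∈ range (N + 1), C m) * ((N * (2 * Real.log 2) + 1) * (θ + 1)) :=
          mul_le_mul (hCm m hm) h2 (by positivity) (by linarith)
      _ = _ := by ring
  have hcmp' : C m * (θ + N * (2 * Real.log 2) + 1) / η ≤ C' * (θ + 1) / η :=
    div_le_div_of_nonneg_right hcmp hη.le
  -- choices
  have hex : ∀ v : Y, ∃ u : (ℕ → PN) × PN, TriN u.1 ∧ (∀ i, (u.1 i).totalDegree ≤ K) ∧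
      u.2.vars ⊆ range (m + 1) ∧ u.2.totalDegree ≤ K ∧
      ∀ ω, 0 < q ω → y ω = v → u.1 = atT (x ω 0) (Ψ ω) ∧ u.2 = F ω := by
    intro v
    by_cases hv : ∃ ω, 0 < q ω ∧ y ω = v
    · obtain ⟨ω, hω, rfl⟩ := hv
      refine ⟨(atT (x ω 0) (Ψ ω), F ω), ?_, ?_, vF ω hω, gF ω hω, ?_⟩
      · intro i
        simp only [atT]
        rcases Nat.eq_zero_or_pos i with rfl | hi
        · rw [Function.update_self, vars_C]
          exact Finset.empty_subset _
        · rw [Function.update_of_ne (by omega)]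
          exact tΨ ω hω i
      · intro i
        unfold atT
        rcases Nat.eq_zero_or_pos i with rfl | hi
        · simp only [Function.update_self, totalDegree_C]
          exact Nat.zero_le _
        · simp only
          rw [Function.update_of_ne (by omega)]
          exact gΨ ω hω i
      · intro ω' hω' he
        have a1 : x ω' 0 = x ω 0 := dT ω' ω hω' hω he
        have a2 : Ψ ω' = Ψ ω := dΨ ω' ω hω' hω he
        have a3 : F ω' = F ω := dF ω' ω hω' hω he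
        simp only
        rw [a1, a2, a3]
        exact ⟨rfl, rfl⟩
    · refine ⟨(fun _ => 0, 0), ?_, ?_, ?_, ?_, ?_⟩
      · intro i
        simp only [vars_0]
        exact Finset.empty_subset _
      · intro i
        simp only [totalDegree_zero]
        exact Nat.zero_le _
      · simp only [vars_0]
        exact Finset.empty_subset _
      · simp only [totalDegree_zero]
        exact Nat.zero_le _
      · intro ω hω he
        exact absurd ⟨ω, hω, he⟩ hv
  choose u u1 u2 u3 u4 u5 using hex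
  have key := h m Ω Y q L y (fun _ => g) (fun v => (u v).1) (fun v => (u v).2) x (fun _ => τ)
    (θ + N * (2 * Real.log 2)) η hq u1 (fun v i _ => u2 v i) u3 u4 (fun _ => hτ) (by positivity)
    hη hη1 ?_ ?_ ?_ (hcmp'.trans hL) ?_
  · refine le_trans (Pb_supp hq0 fun ω hω hb => ?_) key
    intro hc
    refine hb fun b b0 b1 => ?_
    obtain ⟨e1, e2⟩ := u5 (y ω) ω hω rfl
    have e3 := hc b (by
      rw [e1]
      unfold nat atT
      rw [Function.update_self, eval_C, b0, sub_self, mul_zero]) (fun i hi hi' => by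
      rw [e1]
      unfold nat atT
      rw [Function.update_of_ne (by omega)]
      exact b1 i hi hi')
    rw [e2] at e3
    exact e3.trans (mul_le_mul_of_nonneg_right (Real.exp_le_exp.2 hcmp') hτ.le)
  · intro ω hω
    rw [(u5 (y ω) ω hω rfl).1]
    unfold nat atT
    rw [Function.update_self, eval_C, sub_self, mul_zero]
  · intro ω hω i hi hi'
    rw [(u5 (y ω) ω hω rfl).1]
    have := h1 ω hω i hi (by omega)
    unfold nat atT
    rw [Function.update_of_ne (by omega)]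
    exact this
  · have e1 := full_sub hq L (fun ω i => nat g (Ψ ω) (x ω) i) y hm h1
    have e2 : CH q (fun ω (i : Fin m) => ⌊(2 : ℝ) ^ L * nat g (u (y ω)).1 (x ω) (i + 1)⌋) y =
        CH q (fun ω (i : Fin m) => ⌊(2 : ℝ) ^ L * nat g (Ψ ω) (x ω) (i + 1)⌋) y := by
      have e3 : ∀ ω, 0 < q ω →
          (fun (i : Fin m) => ⌊(2 : ℝ) ^ L * nat g (u (y ω)).1 (x ω) (i + 1)⌋) =
          (fun (i : Fin m) => ⌊(2 : ℝ) ^ L * nat g (Ψ ω) (x ω) (i + 1)⌋) := by
        intro ω hω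
        funext i
        rw [(u5 (y ω) ω hω rfl).1]
        unfold nat atT
        rw [Function.update_of_ne (by omega)]
      refine CH_congr hq0 ?_ ?_ (fun _ _ _ _ h => h) (fun _ _ _ _ h => h)
      · intro ω ω' a b hh
        exact (e3 ω a).symm.trans ((Prod.ext_iff.1 hh).1.trans (e3 ω' b))
      · intro ω ω' a b hh
        exact (e3 ω a).trans ((Prod.ext_iff.1 hh).1.trans (e3 ω' b).symm)
    rw [e2]
    have hm' : (m : ℝ) ≤ N := by exact_mod_cast hm
    have e4 : (0 : ℝ) ≤ m * (2 * Real.log 2) := by positivity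
    nlinarith
  · intro ω hω
    rw [(u5 (y ω) ω hω rfl).2]
    exact hF ω hω

end Pool.MIC.Frm
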