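import Pool.Agent.H20.MIC.Ctx
import Pool.Agent.H19.STAT.Sys2L

/-!
# Two labels over one natural box of a cell

`uni_gen`: a polynomial determined by a context `y` (which determines the visible side of the
labels at `(i, j)` and the exact time), small at the own point, is small on the natural box
at `(i, j)` at the exact time, if the base at `(i, j)` is full given `y`.

`uni2`: the visible labels at `(i', j')` and at `(i, j)` agree on the natural box at `(i, j)`, up to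
the larger of the two tolerances, if the base at `(i, j)` is full given the context, the time and
the label at `(i', j')` (field `llV`).
-/

set_option autoImplicit false

namespace Pool.MIC.UniD

open Finset Real MvPolynomial
open Pool.Agent.H49.Ent Pool.Agent.H32.Dense Pool.STK Pool.STAT
open Pool.BFL (Pb)
open Pool.MIC.Frm (nat)

/-- The base at `(i, j)` is full given `y`, to `r` digits. -/
def Ful (D : NDat2) {Y : Type} (n i j r : ℕ) (e : ℝ) (q : D.Ω → ℝ) (y : D.Ω → Y) : Prop :=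
  ((n - 1 : ℕ) : ℝ) * (r * Real.log 2) - e ≤ CH q (D.vd n i j r) y

theorem uni_gen (n K : ℕ) (R ε η : ℝ) (hR : 0 ≤ R) (hε : 0 < ε) (hε1 : ε ≤ 1) (hη : 0 < η)
    (hη1 : η ≤ 1) : ∃ (κ₀ : ℝ) (z₀ : ℕ), 0 < κ₀ ∧
    ∀ (D : NDat2) (q : D.Ω → ℝ) (J i j z r l : ℕ) (Y : Type) (y : D.Ω → Y) (F : D.Ω → PN)
      (τ : ℝ), z₀ ≤ z → z ≤ r → IsLaw q → (∀ ω, D.X ω 0 = (D.T ω : ℝ) / 2 ^ J) →
      Det q y D.T → Det q y (D.s i j) → Det q y F → (∀ x k, (D.G i j x k).totalDegree ≤ K) →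
      (∀ x, TriN (D.G i j x)) → 1 ≤ l → l ≤ n →
      (∀ ω, 0 < q ω → (F ω).vars ⊆ range l) → (∀ ω, 0 < q ω → (F ω).totalDegree ≤ K) → 0 < τ →
      (∀ ω, 0 < q ω → ∀ k, 1 ≤ k → k ≤ n → |D.sh i j ω k| ≤ 1 / 2 ^ D.g i j k) →
      Ful D n i j r (κ₀ * z) q y → (∀ ω, 0 < q ω → |eval (D.X ω) (F ω)| ≤ τ) →
      Pb q (fun ω => ¬ ∀ b : ℕ → ℝ, b 0 = D.X ω 0 →
        (∀ k, 1 ≤ k → k < l → |b k - eval b (D.Ψ i j ω k)| ≤ R / 2 ^ D.g i j k) →
        |eval b (F ω)| ≤ Real.exp (ε * z) * τ) ≤ η := by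
  obtain ⟨C, hC, h⟩ := Frm.uni_ctx (n - 1) K R hR
  have hC0 : 0 < C := by linarith
  obtain ⟨z₁, hz₁⟩ := exists_nat_ge (4 * C / (η * ε))
  refine ⟨η * ε / (4 * C), max z₁ 1, by positivity, ?_⟩
  intro D q J i j z r l Y y F τ hz hzr hq hX dT ds dF hdeg htri hl hln vF gF hτ hpos hful hF
  have hz1 : (1 : ℝ) ≤ z := by exact_mod_cast (le_max_right _ _).trans hz
  have hzz : (z₁ : ℝ) ≤ z := by exact_mod_cast (le_max_left _ _).trans hz
  have hl2 : (1 : ℝ) / 2 ≤ Real.log 2 := by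
    have := Real.log_two_gt_d9
    linarith
  have hkey0 : C * (η * ε / (4 * C) * z + 1) / η ≤ ε * z / 2 := by
    rw [div_le_iff₀ hη]
    have e1 : C * (η * ε / (4 * C) * z + 1) = η * ε * z / 4 + C := by
      field_simp
    rw [e1]
    have e2 : 4 * C ≤ z * (η * ε) := by
      have := hz₁.trans hzz
      rwa [div_le_iff₀ (by positivity)] at this
    nlinarith
  have hez : 0 ≤ ε * z := by positivity
  have hkey : C * (η * ε / (4 * C) * z + 1) / η ≤ ε * z := by linarith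
  have hkey2 : C * (η * ε / (4 * C) * z + 1) / η ≤ r * Real.log 2 := by
    refine hkey0.trans ?_
    have e1 : (z : ℝ) ≤ r := by exact_mod_cast hzr
    have e2 : ε * z ≤ 1 * z := mul_le_mul_of_nonneg_right hε1 (by linarith)
    have e3 : (r : ℝ) * (1 / 2) ≤ r * Real.log 2 :=
      mul_le_mul_of_nonneg_left hl2 (by linarith)
    linarith
  refine le_trans (Frm.Pb_supp hq.nonneg fun ω hω hb => ?_)
    (h (l - 1) (by omega) D.Ω Y q r y (D.g i j) (D.Ψ i j) F D.X τ (η * ε / (4 * C) * z) η hq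
      ?_ ?_ dF ?_ ?_ ?_ gF hτ (by positivity) hη hη1 ?_ ?_ hkey2 hF)
  · intro hc
    refine hb fun b b0 b1 => ?_
    refine (hc b b0 fun k hk hk' => ?_).trans
      (mul_le_mul_of_nonneg_right (Real.exp_le_exp.2 hkey) hτ.le)
    have := b1 k hk (by omega)
    unfold nat
    rw [abs_mul, abs_of_pos (by positivity)]
    rw [le_div_iff₀ (by positivity)] at this
    linarith
  · intro ω ω' a b hy
    have e : D.T ω = D.T ω' := dT ω ω' a b hy
    change D.X ω 0 = D.X ω' 0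
    rw [hX, hX, e]
  · intro ω ω' a b hy
    have e : D.s i j ω = D.s i j ω' := ds ω ω' a b hy
    unfold NDat2.Ψ
    rw [e]
  · intro ω _
    exact htri _
  · intro ω _ k
    exact hdeg _ _
  · intro ω hω
    have := vF ω hω
    rwa [show l - 1 + 1 = l by omega]
  · intro ω hω k hk hk'
    have := hpos ω hω k hk (by omega)
    unfold NDat2.sh at this
    unfold nat
    rw [abs_mul, abs_of_pos (by positivity)]
    rw [le_div_iff₀ (by positivity)] at this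
    linarith
  · have e1 : D.vd n i j r = fun ω (k : Fin (n - 1)) =>
        ⌊(2 : ℝ) ^ r * nat (D.g i j) (D.Ψ i j ω) (D.X ω) (k + 1)⌋ := by
      funext ω k
      unfold NDat2.vd NDat2.sh nat
      rw [pow_add]
      congr 1
      ring
    unfold Ful at hful
    rw [e1] at hful
    exact hful

/-- **Two labels over one natural box.** -/
theorem uni2 (n K : ℕ) (R ε η : ℝ) (hR : 0 ≤ R) (hε : 0 < ε) (hε1 : ε ≤ 1) (hη : 0 < η)
    (hη1 : η ≤ 1) : ∃ (κ₀ : ℝ) (z₀ : ℕ), 0 < κ₀ ∧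
    ∀ (J a₀ w₀ z M : ℕ) (lam gam : ℕ → ℝ) (κ C₁ : ℝ) (D : NDat2) (q : D.Ω → ℝ),
      z₀ ≤ z → D.Ok2 n K J a₀ w₀ z M lam gam κ C₁ q →
      ∀ (i' j' i j r : ℕ), i' ≤ M → j' ≤ M → i ≤ M → j ≤ M → z ≤ r →
        Ful D n i j r (κ₀ * z) q (fun ω => (D.s i' j' ω, (D.c i j ω, D.T ω))) →
      ∀ l, 1 ≤ l → l ≤ n →
      Pb q (fun ω => ¬ ∀ b : ℕ → ℝ, b 0 = D.X ω 0 →
        (∀ k, 1 ≤ k → k < l → |b k - eval b (D.Ψ i j ω k)| ≤ R / 2 ^ D.g i j k) →
        |eval b (D.Ψ i' j' ω l) - eval b (D.Ψ i j ω l)| ≤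
          Real.exp (ε * z) / 2 ^ (min (D.g i' j' l) (D.g i j l))) ≤ η := by
  obtain ⟨κ₀, z₀, hκ, h⟩ := uni_gen n K R (ε / 2) η hR (by linarith) (by linarith) hη hη1
  obtain ⟨z₁, hz₁⟩ := exists_nat_ge (2 / ε)
  refine ⟨κ₀, max z₀ z₁, hκ, ?_⟩
  intro J a₀ w₀ z M lam gam κ C₁ D q hz hO i' j' i j r hi' hj' hi hj hzr hful l hl hln
  have hq := hO.isLaw
  have h2 : 2 ≤ Real.exp (ε / 2 * z) := by
    have e1 : (z₁ : ℝ) ≤ z := by exact_mod_cast (le_max_right _ _).trans hz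
    have e2 := hz₁.trans e1
    rw [div_le_iff₀ hε] at e2
    have e3 := Real.add_one_le_exp (ε / 2 * z)
    linarith
  have hτ : (0 : ℝ) < 2 / 2 ^ (min (D.g i' j' l) (D.g i j l)) := by positivity
  have hm1 : (1 : ℝ) / 2 ^ D.g i' j' l ≤ 1 / 2 ^ (min (D.g i' j' l) (D.g i j l)) :=
    one_div_le_one_div_of_le (by positivity)
      (pow_le_pow_right₀ (by norm_num) (min_le_left _ _))
  have hm2 : (1 : ℝ) / 2 ^ D.g i j l ≤ 1 / 2 ^ (min (D.g i' j' l) (D.g i j l)) :=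
    one_div_le_one_div_of_le (by positivity)
      (pow_le_pow_right₀ (by norm_num) (min_le_right _ _))
  refine le_trans (Frm.Pb_supp hq.nonneg fun ω hω hb => ?_)
    (h D q J i j z r l _ (fun ω => (D.s i' j' ω, (D.c i j ω, D.T ω)))
      (fun ω => D.Ψ i' j' ω l - D.Ψ i j ω l) (2 / 2 ^ (min (D.g i' j' l) (D.g i j l)))
      ((le_max_left _ _).trans hz) hzr hq hO.X_zero ?_ ?_ ?_ (hO.G_deg i j) (hO.G_tri i j) hl hln
      ?_ ?_ hτ (hO.pos i hi j hj) hful ?_)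
  · intro hc
    refine hb fun b b0 b1 => ?_
    have e1 := hc b b0 b1
    rw [map_sub] at e1
    refine e1.trans ?_
    rw [mul_div_assoc']
    refine div_le_div_of_nonneg_right ?_ (by positivity)
    have e2 : Real.exp (ε * z) = Real.exp (ε / 2 * z) * Real.exp (ε / 2 * z) := by
      rw [← Real.exp_add]
      congr 1
      ring
    rw [e2]
    exact mul_le_mul_of_nonneg_left h2 (Real.exp_pos _).le
  · intro ω ω' _ _ hy
    exact (Prod.ext_iff.1 (Prod.ext_iff.1 hy).2).2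
  · intro ω ω' a b hy
    exact hO.s_c i hi j hj ω ω' a b (Prod.ext_iff.1 hy).2
  · intro ω ω' a b hy
    have e1 : D.s i' j' ω = D.s i' j' ω' := (Prod.ext_iff.1 hy).1
    have e2 : D.s i j ω = D.s i j ω' := hO.s_c i hi j hj ω ω' a b (Prod.ext_iff.1 hy).2
    unfold NDat2.Ψ
    simp only
    rw [e1, e2]
  · intro ω _
    exact AdxRow.vars_sub_le (hO.G_tri i' j' _ l) (hO.G_tri i j _ l)
  · intro ω _
    exact (totalDegree_sub _ _).trans (max_le (hO.G_deg i' j' _ l) (hO.G_deg i j _ l))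
  · intro ω hω
    have e1 := hO.pos i' hi' j' hj' ω hω l hl hln
    have e2 := hO.pos i hi j hj ω hω l hl hln
    unfold NDat2.sh at e1 e2
    rw [map_sub]
    have e3 : eval (D.X ω) (D.Ψ i' j' ω l) - eval (D.X ω) (D.Ψ i j ω l) =
        (D.X ω l - eval (D.X ω) (D.Ψ i j ω l)) - (D.X ω l - eval (D.X ω) (D.Ψ i' j' ω l)) := by
      ring
    rw [e3]
    refine (abs_sub _ _).trans ?_
    have e4 : (2 : ℝ) / 2 ^ (min (D.g i' j' l) (D.g i j l)) =
        1 / 2 ^ (min (D.g i' j' l) (D.g i j l)) + 1 / 2 ^ (min (D.g i' j' l) (D.g i j l)) := by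
      ring
    rw [e4]
    linarith

/-- Fullness given one more label, from the field `LLV`. -/
theorem ful_of_llv {D : NDat2} {n z M i j i' j' : ℕ} {κ κ₀ : ℝ} {q : D.Ω → ℝ}
    (h : D.LLV n z M κ q) (hp : ∀ ω, 0 ≤ q ω) (hκ : κ ≤ κ₀) {U : ℕ} (hU : i + U ≤ M)
    (hj : j ≤ M) (hi' : i' ≤ M) (hj' : j' ≤ M)
    (hg : ∀ l, 1 ≤ l → l < n → D.g i' j' l ≤ D.g i j l) :
    Ful D n i j (U * z) (κ₀ * z) q (fun ω => (D.s i' j' ω, (D.c i j ω, D.T ω))) := by
  classical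
  have h1 := h i (by omega) j hj U hU Finset.univ {(i', j')} (fun t ht => by
    obtain rfl := Finset.mem_singleton.1 ht
    exact ⟨hi', hj', fun l _ => hg _ (by omega) (by have := l.2; omega)⟩)
  unfold Ful
  have hz0 : (0 : ℝ) ≤ z := Nat.cast_nonneg z
  have m1 : κ * (z : ℝ) ≤ κ₀ * z := mul_le_mul_of_nonneg_right hκ hz0
  have e1 : CH q (fun ω (l : (Finset.univ : Finset (Fin (n - 1)))) => D.vd n i j (U * z) ω l)
      (fun ω => ((fun t : ({(i', j')} : Finset (ℕ × ℕ)) => D.s t.1.1 t.1.2 ω),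
        (D.c i j ω, D.T ω))) =
      CH q (D.vd n i j (U * z)) (fun ω => (D.s i' j' ω, (D.c i j ω, D.T ω))) := by
    refine CH_congr hp ?_ ?_ ?_ ?_
    · intro ω ω' _ _ hh
      have e2 := (Prod.ext_iff.1 hh).1
      funext l
      exact congrFun e2 ⟨l, Finset.mem_univ l⟩
    · intro ω ω' _ _ hh
      have e2 := (Prod.ext_iff.1 hh).1
      funext l
      exact congrFun e2 l.1
    · intro ω ω' _ _ hh
      have e2 := (Prod.ext_iff.1 hh).1
      have e3 := congrFun e2 ⟨(i', j'), Finset.mem_singleton_self _⟩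
      exact Prod.ext e3 (Prod.ext_iff.1 hh).2
    · intro ω ω' _ _ hh
      refine Prod.ext ?_ (Prod.ext_iff.1 hh).2
      funext t
      have e2 : D.s i' j' ω = D.s i' j' ω' := (Prod.ext_iff.1 hh).1
      have e3 : t.1 = (i', j') := Finset.mem_singleton.1 t.2
      simp only
      rw [e3]
      exact e2
  rw [e1, Finset.card_univ, Fintype.card_fin] at h1
  push_cast at h1 ⊢
  linarith

/-- **Two labels over one natural box**, from the field `LLV`. -/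
theorem uni_llv (n K : ℕ) (R ε η : ℝ) (hR : 0 ≤ R) (hε : 0 < ε) (hε1 : ε ≤ 1) (hη : 0 < η)
    (hη1 : η ≤ 1) : ∃ (κ₀ : ℝ) (z₀ : ℕ), 0 < κ₀ ∧
    ∀ (J a₀ w₀ z M : ℕ) (lam gam : ℕ → ℝ) (κ C₁ : ℝ) (D : NDat2) (q : D.Ω → ℝ),
      z₀ ≤ z → κ ≤ κ₀ → D.Ok2 n K J a₀ w₀ z M lam gam κ C₁ q → D.LLV n z M κ q →
      ∀ (i' j' i j : ℕ), i' ≤ M → j' ≤ M → i + 1 ≤ M → j ≤ M →
        (∀ l, 1 ≤ l → l < n → D.g i' j' l ≤ D.g i j l) →
      ∀ l, 1 ≤ l → l ≤ n →
      Pb q (fun ω => ¬ ∀ b : ℕ → ℝ, b 0 = D.X ω 0 →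
        (∀ k, 1 ≤ k → k < l → |b k - eval b (D.Ψ i j ω k)| ≤ R / 2 ^ D.g i j k) →
        |eval b (D.Ψ i' j' ω l) - eval b (D.Ψ i j ω l)| ≤
          Real.exp (ε * z) / 2 ^ (min (D.g i' j' l) (D.g i j l))) ≤ η := by
  obtain ⟨κ₀, z₀, hκ₀, h⟩ := uni2 n K R ε η hR hε hε1 hη hη1
  refine ⟨κ₀, z₀, hκ₀, ?_⟩
  intro J a₀ w₀ z M lam gam κ C₁ D q hz hκ hO hV i' j' i j hi' hj' hi hj hg l hl hln
  have h1 := ful_of_llv hV hO.isLaw.nonneg hκ hi hj hi' hj' hg
  exact h J a₀ w₀ z M lam gam κ C₁ D q hz hO i' j' i j (1 * z) hi' hj' (by omega) hj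
    (by omega) h1 l hl hln

end Pool.MIC.UniD
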