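import Pool.Agent.H90.STAT.Adx
import Pool.Agent.H36.STAT.Dgb
import Pool.Agent.H35.SYS.Base

/-!
# Natural frames

The natural coordinates of a point over a triangular system `Φ` with the sides `2 ^ (-g i)`, the
point with given natural coordinates, and the growth of boxes: two triangular systems which agree
on the natural box of one of them agree on larger boxes, up to constants.
-/

set_option autoImplicit false

namespace Pool.MIC.Frm

open Finset Real MvPolynomial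
open Pool.STAT

/-- The natural coordinates of the point `b`. -/
noncomputable def nat (g : ℕ → ℕ) (Φ : ℕ → PN) (b : ℕ → ℝ) (i : ℕ) : ℝ :=
  (2 : ℝ) ^ g i * (b i - eval b (Φ i))

/-- The point with the natural coordinates `z`. -/
noncomputable def pt (g : ℕ → ℕ) (Φ : ℕ → PN) (z : ℕ → ℝ) (i : ℕ) : ℝ := eval z (nuc g Φ i)

section basic

variable {g : ℕ → ℕ} {Φ : ℕ → PN}

theorem pt_eq (hΦ : TriN Φ) (z : ℕ → ℝ) (i : ℕ) :
    pt g Φ z i = eval (pt g Φ z) (Φ i) + z i / 2 ^ g i := by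
  unfold pt
  rw [AdxRow.nuc_eq hΦ, map_add, map_mul, eval_C, eval_X, AdxRow.evl_bnd]
  ring

theorem nat_pt (hΦ : TriN Φ) (z : ℕ → ℝ) : nat g Φ (pt g Φ z) = z := by
  funext i
  unfold nat
  rw [pt_eq hΦ z i]
  field_simp
  ring

theorem pt_nat (hΦ : TriN Φ) (b : ℕ → ℝ) : pt g Φ (nat g Φ b) = b :=
  funext fun i => AdxRow.nuc_eval hΦ g b i

/-- Polynomials in the frame. -/
theorem eval_fr (hΦ : TriN Φ) (b : ℕ → ℝ) (F : PN) :
    eval (nat g Φ b) (bind₁ (nuc g Φ) F) = eval b F := by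
  rw [AdxRow.evl_bnd]
  exact congrArg (fun u => eval u F) (pt_nat hΦ b)

theorem eval_fr' (z : ℕ → ℝ) (F : PN) :
    eval z (bind₁ (nuc g Φ) F) = eval (pt g Φ z) F := by
  rw [AdxRow.evl_bnd]
  rfl

theorem vars_fr (hΦ : TriN Φ) {F : PN} {m : ℕ} (hF : F.vars ⊆ range m) :
    (bind₁ (nuc g Φ) F).vars ⊆ range m :=
  AdxRow.vars_bnd (m := m) hF fun k hk =>
    (AdxRow.nuc_vars hΦ g k).trans (Finset.range_mono (by omega))

theorem deg_fr {K K' m : ℕ} (hΦ : TriN Φ) (hK : ∀ i < m, (Φ i).totalDegree ≤ K) {F : PN}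
    (hv : F.vars ⊆ range m) (hF : F.totalDegree ≤ K') :
    (bind₁ (nuc g Φ) F).totalDegree ≤ K' * (K + 1) ^ m := by
  rcases Nat.eq_zero_or_pos m with rfl | hm
  · refine (Dgb.deg_bind (B := 0) fun k hk => ?_).trans (by simp)
    exact absurd (mem_range.1 (hv hk)) (Nat.not_lt_zero _)
  refine (Dgb.deg_bind (B := (K + 1) ^ m) fun k hk => ?_).trans (Nat.mul_le_mul_right _ hF)
  have h1 := mem_range.1 (hv hk)
  refine (Dgb.deg_nuc (n := m - 1) hΦ (fun i hi => hK i (by omega)) g k (by omega)).trans ?_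
  exact Nat.pow_le_pow_right (Nat.succ_pos _) (by omega)

end basic

/-! ### Growth -/

/-- **Growth**: a polynomial which is small on the unit box is small on larger boxes. -/
theorem grow (n K : ℕ) : ∃ C : ℝ, 1 ≤ C ∧ ∀ (F : PN) (S B : ℝ), 1 ≤ B → F.vars ⊆ range n →
    F.totalDegree ≤ K → (∀ z : ℕ → ℝ, (∀ i < n, |z i| ≤ 1) → |eval z F| ≤ S) →
    ∀ z : ℕ → ℝ, (∀ i < n, |z i| ≤ B) → |eval z F| ≤ C * B ^ K * S := by
  obtain ⟨C, hC, h⟩ := Pool.SYS35.nrm_of_sup n K
  refine ⟨C, hC, fun F S B hB hv hK hS z hz => ?_⟩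
  have h1 := h (fun _ => 1) 1 F S one_pos hv hK (fun b hb => hS b fun i hi => by
    have := hb i hi
    rwa [one_pow] at this)
  have hB0 : 0 ≤ B := by linarith
  have h2 : |eval z F| ≤ nrm (fun _ => 1) B F := by
    rw [eval_eq]
    refine (Finset.abs_sum_le_sum_abs _ _).trans (Finset.sum_le_sum fun k hk => ?_)
    rw [abs_mul]
    refine mul_le_mul_of_nonneg_left ?_ (abs_nonneg _)
    rw [Finset.abs_prod]
    have h3 : B ^ Finsupp.weight (fun _ : ℕ => 1) k = ∏ i ∈ k.support, B ^ k i := by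
      rw [Finsupp.weight_apply, Finsupp.sum, ← Finset.prod_pow_eq_pow_sum]
      refine Finset.prod_congr rfl fun j _ => ?_
      change B ^ (k j • 1) = _
      rw [smul_eq_mul, mul_one]
    rw [h3]
    refine Finset.prod_le_prod (fun _ _ => abs_nonneg _) fun i hi => ?_
    rw [abs_pow]
    refine pow_le_pow_left₀ (abs_nonneg _) (hz i ?_) _
    exact mem_range.1 (hv ((mem_vars_iff_mem_support i).2 ⟨k, hk, hi⟩))
  have h4 : nrm (fun _ => 1) B F ≤ B ^ K * nrm (fun _ => 1) 1 F := by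
    have := Pool.SYS35.nrm_scale (d := fun _ => 1) (D := K) (F := F) (fun k hk => by
      refine le_trans (le_of_eq ?_) ((le_totalDegree hk).trans hK)
      rw [Finsupp.weight_apply]
      refine Finset.sum_congr rfl fun j _ => ?_
      change k j • 1 = k j
      rw [smul_eq_mul, mul_one]) (A := B) (ρ := 1) hB zero_le_one
    rwa [mul_one] at this
  calc |eval z F| ≤ B ^ K * nrm (fun _ => 1) 1 F := h2.trans h4
    _ ≤ B ^ K * (C * S) := mul_le_mul_of_nonneg_left h1 (by positivity)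
    _ = C * B ^ K * S := by ring

/-- A function bounded by a polynomial expression on the natural box, in absolute coordinates. -/
theorem grow_fr (n K : ℕ) : ∃ (C : ℝ) (D : ℕ), 1 ≤ C ∧ ∀ (g : ℕ → ℕ) (Φ : ℕ → PN) (F : PN)
    (S B : ℝ), TriN Φ → (∀ i < n, (Φ i).totalDegree ≤ K) → 1 ≤ B → F.vars ⊆ range n →
    F.totalDegree ≤ K → (∀ b : ℕ → ℝ, (∀ i < n, |nat g Φ b i| ≤ 1) → |eval b F| ≤ S) →
    ∀ b : ℕ → ℝ, (∀ i < n, |nat g Φ b i| ≤ B) → |eval b F| ≤ C * B ^ D * S := by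
  obtain ⟨C, hC, h⟩ := grow n (K * (K + 1) ^ n)
  refine ⟨C, K * (K + 1) ^ n, hC, fun g Φ F S B hΦ hK hB hv hF hS b hb => ?_⟩
  rw [← eval_fr (g := g) hΦ b F]
  refine h (bind₁ (nuc g Φ) F) S B hB (vars_fr hΦ hv) (deg_fr hΦ hK hv hF) (fun z hz => ?_) _ hb
  rw [eval_fr']
  refine hS _ fun i hi => ?_
  rw [nat_pt hΦ]
  exact hz i hi

/-- **Two systems which agree on the natural box of the first one agree on larger boxes of the
second one**, and these boxes are contained in larger boxes of the first one. The coordinate `0`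
has the same label in both. -/
theorem agree (n K : ℕ) (B : ℝ) (hB : 1 ≤ B) : ∃ C : ℝ, 1 ≤ C ∧ ∀ (g : ℕ → ℕ)
    (Ψ Φ : ℕ → PN), TriN Ψ → TriN Φ → (∀ i ≤ n, (Ψ i).totalDegree ≤ K) →
    (∀ i ≤ n, (Φ i).totalDegree ≤ K) → Ψ 0 = Φ 0 →
    (∀ l, 1 ≤ l → l ≤ n → ∀ b : ℕ → ℝ, (∀ i < l, |nat g Ψ b i| ≤ 1) →
      |eval b (Ψ l) - eval b (Φ l)| ≤ 1 / 2 ^ g l) →
    ∀ l ≤ n, ∀ b : ℕ → ℝ, (∀ i < l, |nat g Φ b i| ≤ B) →
      (∀ i < l, |nat g Ψ b i| ≤ C) ∧ |eval b (Ψ l) - eval b (Φ l)| ≤ C / 2 ^ g l := by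
  have main : ∀ m ≤ n, ∃ C : ℝ, 1 ≤ C ∧ ∀ (g : ℕ → ℕ)
      (Ψ Φ : ℕ → PN), TriN Ψ → TriN Φ → (∀ i ≤ n, (Ψ i).totalDegree ≤ K) →
      (∀ i ≤ n, (Φ i).totalDegree ≤ K) → Ψ 0 = Φ 0 →
      (∀ l, 1 ≤ l → l ≤ n → ∀ b : ℕ → ℝ, (∀ i < l, |nat g Ψ b i| ≤ 1) →
        |eval b (Ψ l) - eval b (Φ l)| ≤ 1 / 2 ^ g l) →
      ∀ l ≤ m, ∀ b : ℕ → ℝ, (∀ i < l, |nat g Φ b i| ≤ B) →
        (∀ i < l, |nat g Ψ b i| ≤ C) ∧ |eval b (Ψ l) - eval b (Φ l)| ≤ C / 2 ^ g l := by
    intro m
    induction m with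
    | zero =>
      intro _
      refine ⟨1, le_rfl, ?_⟩
      intro g Ψ Φ hΨ hΦ _ _ h0 _ l hl b _
      obtain rfl : l = 0 := by omega
      refine ⟨fun i hi => absurd hi (Nat.not_lt_zero _), ?_⟩
      rw [h0, sub_self, abs_zero]
      positivity
    | succ m ih =>
      intro hm
      obtain ⟨C, hC, h⟩ := ih (by omega)
      obtain ⟨C', D, hC', h'⟩ := grow_fr (m + 1) K
      set C₁ := C + B with hC₁
      have h1 : 1 ≤ C₁ := by linarith
      set C₂ := C' * C₁ ^ D with hC₂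
      have h2 : 1 ≤ C₂ := by
        have := one_le_pow₀ (n := D) h1
        nlinarith
      refine ⟨max C₁ C₂, h1.trans (le_max_left _ _), ?_⟩
      intro g Ψ Φ hΨ hΦ dΨ dΦ h0 hag l hl b hb
      rcases Nat.lt_or_ge m l with hl' | hl'
      · obtain rfl : l = m + 1 := by omega
        obtain ⟨a1, a2⟩ := h g Ψ Φ hΨ hΦ dΨ dΦ h0 hag m le_rfl b fun i hi => hb i (by omega)
        have b1 : ∀ i < m + 1, |nat g Ψ b i| ≤ C₁ := by
          intro i hi
          rcases Nat.lt_or_ge i m with hi' | hi'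
          · exact (a1 i hi').trans (by linarith)
          · obtain rfl : i = m := by omega
            have e1 : nat g Ψ b i = nat g Φ b i -
                2 ^ g i * (eval b (Ψ i) - eval b (Φ i)) := by
              unfold nat
              ring
            rw [e1]
            have e2 : |(2 : ℝ) ^ g i * (eval b (Ψ i) - eval b (Φ i))| ≤ C := by
              rw [abs_mul, abs_of_pos (by positivity)]
              calc (2 : ℝ) ^ g i * _ ≤ 2 ^ g i * (C / 2 ^ g i) :=
                    mul_le_mul_of_nonneg_left a2 (by positivity)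
                _ = C := by field_simp
            have e3 := abs_sub (nat g Φ b i) (2 ^ g i * (eval b (Ψ i) - eval b (Φ i)))
            have e4 := hb i hi
            linarith
        refine ⟨fun i hi => (b1 i hi).trans (le_max_left _ _), ?_⟩
        have b2 := h' g Ψ (Ψ (m + 1) - Φ (m + 1)) (1 / 2 ^ g (m + 1)) C₁ hΨ
          (fun i hi => dΨ i (by omega)) h1
          (AdxRow.vars_sub_le (hΨ (m + 1)) (hΦ (m + 1)))
          ((totalDegree_sub _ _).trans (max_le (dΨ _ hm) (dΦ _ hm))) (fun b hb => by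
            rw [map_sub]
            exact hag (m + 1) (by omega) hm b hb) b b1
        rw [map_sub] at b2
        refine b2.trans ?_
        rw [← hC₂, mul_one_div]
        exact div_le_div_of_nonneg_right (le_max_right _ _) (by positivity)
      · obtain ⟨a1, a2⟩ := h g Ψ Φ hΨ hΦ dΨ dΦ h0 hag l hl' b hb
        have e : C ≤ max C₁ C₂ := by
          refine le_trans ?_ (le_max_left _ _)
          linarith
        exact ⟨fun i hi => (a1 i hi).trans e, a2.trans
          (div_le_div_of_nonneg_right e (by positivity))⟩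
  exact main n le_rfl

end Pool.MIC.Frm
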