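import Pool.Agent.H20.MIC.Fru
import Pool.Agent.H44.GN.PthD

/-!
# The data of the path lemma from labels over a natural box

The chart is the line side `cP` of the labels of the base coordinates `1, …, k` (a function of the
context `E`), `FH` the label of the target (line side), `FG` the own sheet of the target; the
window is the window of length `2 ^ (-w)` with the number `cN`.
-/

set_option autoImplicit false

namespace Pool.MIC.FruP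

open Finset Real MvPolynomial
open Pool.Agent.H49.Ent Pool.Agent.H32.Dense Pool.STK Pool.STAT
open Pool.MIC.Fru

/-- The data of the path lemma. -/
noncomputable def dat (k w J : ℕ) {Ω Λ Z : Type} [Fintype Ω] (q : Ω → ℝ) (ln : Ω → Λ) (E : Ω → Z)
    (T : Ω → ℕ) (g : ℕ → ℕ) (cN : Z → ℕ) (cP : Z → ℕ → PN) (FH : Λ → Z → PN) (FG : Ω → PN) :
    Pool.GPath.Dat (k + 1) where
  Om := Ω
  Lam := Λ
  Ze := Z
  p := q
  L := ln
  E := E
  J := J - w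
  T := fun ω => T ω % 2 ^ (J - w)
  H := fun l z => inF (k + 1) w (cN z) g (cP z) (FH l z)
  G := fun ω => inF (k + 1) w (cN (E ω)) g (cP (E ω)) (FG ω)

theorem dat_ok (k K : ℕ) : ∃ C : ℝ, 1 ≤ C ∧ ∀ (w J e X a : ℕ) (Ω Λ Z : Type) [Fintype Ω]
    (q : Ω → ℝ) (ln : Ω → Λ) (E : Ω → Z) (T : Ω → ℕ) (g : ℕ → ℕ) (cN : Z → ℕ)
    (cP : Z → ℕ → PN) (FH : Λ → Z → PN) (FG : Ω → PN) (Ψ : Ω → ℕ → PN),
    IsLaw q → w ≤ J → a + X ≤ J - w →
    (∀ ω, 0 < q ω → cN (E ω) = T ω / 2 ^ (J - w)) →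
    (∀ z, TriN (cP z)) → (∀ z, ∀ i ≤ k, (cP z i).totalDegree ≤ K) →
    (∀ l z, (FH l z).vars ⊆ range (k + 1)) → (∀ l z, (FH l z).totalDegree ≤ K) →
    (∀ ω, (FG ω).vars ⊆ range (k + 1)) → (∀ ω, (FG ω).totalDegree ≤ K) →
    (∀ ω, 0 < q ω → TriN (Ψ ω)) → (∀ ω, 0 < q ω → ∀ i ≤ k, (Ψ ω i).totalDegree ≤ K) →
    (Det q (fun ω => (ln ω, (E ω, T ω))) FG) →
    (∀ ω, 0 < q ω → ∀ l, 1 ≤ l → l ≤ k → ∀ b : ℕ → ℝ, b 0 = (T ω : ℝ) / 2 ^ J →
      (∀ j, 1 ≤ j → j < l → |b j - eval b (Ψ ω j)| ≤ 1 / 2 ^ g j) →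
      |eval b (Ψ ω l) - eval b (cP (E ω) l)| ≤ 1 / 2 ^ g l) →
    (∀ ω, 0 < q ω → ∀ b : ℕ → ℝ, b 0 = (T ω : ℝ) / 2 ^ J →
      (∀ j, 1 ≤ j → j ≤ k → |b j - eval b (Ψ ω j)| ≤ 1 / 2 ^ g j) →
      |eval b (FG ω) - eval b (FH (ln ω) (E ω))| ≤ 1 / 2 ^ (e + X)) →
    (dat k w J q ln E T g cN cP FH FG).OK 0 (K * (K + 1) ^ (k + 1)) e X a C := by
  obtain ⟨C, hC, h⟩ := near_k k K
  refine ⟨C, hC, ?_⟩
  intro w J e X a Ω Λ Z _ q ln E T g cN cP FH FG Ψ hq hwJ haX hN tP dP vH dH vG dG tΨ dΨ hown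
    hag hagN
  refine ⟨hq, ?_, haX, ?_, ?_, ?_, ?_⟩
  · intro ω
    exact Nat.mod_lt _ (by positivity)
  · intro l z
    exact deg_inF (tP z) (fun i hi => dP z i (by omega)) (vH l z) (dH l z)
  · intro ω
    exact deg_inF (tP _) (fun i hi => dP _ i (by omega)) (vG ω) (dG ω)
  · intro ω ω' hω hω' h1 h2 h3
    change ln ω = ln ω' at h1
    change E ω = E ω' at h2
    change T ω % 2 ^ (J - w) = T ω' % 2 ^ (J - w) at h3
    change 0 < q ω at hω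
    change 0 < q ω' at hω'
    have e1 : T ω / 2 ^ (J - w) = T ω' / 2 ^ (J - w) := by
      rw [← hN ω hω, ← hN ω' hω', h2]
    have e2 : T ω = T ω' := by
      rw [← Nat.div_add_mod (T ω) (2 ^ (J - w)), ← Nat.div_add_mod (T ω') (2 ^ (J - w)), e1, h3]
    have e3 : FG ω = FG ω' := hown ω ω' hω hω' (Prod.ext h1 (Prod.ext h2 e2))
    change inF (k + 1) w (cN (E ω)) g (cP (E ω)) (FG ω) =
      inF (k + 1) w (cN (E ω')) g (cP (E ω')) (FG ω')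
    rw [h2, e3]
  · intro ω hω b hb hb0
    change 0 < q ω at hω
    have e1 : ((cN (E ω) : ℝ) + b 0) / 2 ^ w = (T ω : ℝ) / 2 ^ J := by
      have e0 : b 0 = ((T ω % 2 ^ (J - w) : ℕ) : ℝ) / 2 ^ (J - w) := hb0
      rw [e0, hN ω hω]
      exact time_eq hwJ
    exact h w (cN (E ω)) (e + X) g (cP (E ω)) (Ψ ω) (FH (ln ω) (E ω)) (FG ω) ((T ω : ℝ) / 2 ^ J)
      (tP _) (tΨ ω hω) (dP _) (dΨ ω hω) (vH _ _) (dH _ _) (vG ω) (dG ω) (hag ω hω) (hagN ω hω) b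
      hb e1

/-- **(time)** from a full time given the line. -/
theorem tim {k w w₀ J : ℕ} {Ω Λ Z : Type} [Fintype Ω] {q : Ω → ℝ} {ln : Ω → Λ} {E : Ω → Z}
    {T : Ω → ℕ} {g : ℕ → ℕ} {cN : Z → ℕ} {cP : Z → ℕ → PN} {FH : Λ → Z → PN} {FG : Ω → PN}
    {δ : ℝ} (hq : IsLaw q) (hw₀ : w₀ ≤ w) (hwJ : w ≤ J)
    (hln : Det q ln (fun ω => T ω / 2 ^ (J - w₀)))
    (hE : Det q (fun ω => (ln ω, T ω / 2 ^ (J - w))) E)
    (hT : ((J - w₀ : ℕ) : ℝ) * Real.log 2 - δ ≤ CH q T ln) :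
    (dat k w J q ln E T g cN cP FH FG).Tim δ := by
  unfold Pool.GPath.Dat.Tim
  change ((J - w : ℕ) : ℝ) * Real.log 2 - δ ≤
    CH q (fun ω => T ω % 2 ^ (J - w)) (fun ω => (ln ω, E ω))
  have hq0 := hq.nonneg
  have e1 : CH q (fun ω => T ω % 2 ^ (J - w)) (fun ω => (ln ω, T ω / 2 ^ (J - w))) ≤
      CH q (fun ω => T ω % 2 ^ (J - w)) (fun ω => (ln ω, E ω)) :=
    CH_mono_cond hq0 fun ω ω' a b hh => by
      have h1 : E ω = E ω' := hE ω ω' a b hh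
      have h2 : ln ω = ln ω' := (Prod.ext_iff.1 hh).1
      exact Prod.ext h2 h1
  have e2 : CH q T ln ≤ CH q (fun ω => T ω / 2 ^ (J - w)) ln +
      CH q T (fun ω => (T ω / 2 ^ (J - w), ln ω)) :=
    CH_le_add hq0 T (fun ω => T ω / 2 ^ (J - w)) ln
  have e3 : CH q T (fun ω => (T ω / 2 ^ (J - w), ln ω)) ≤
      CH q (fun ω => T ω % 2 ^ (J - w)) (fun ω => (ln ω, T ω / 2 ^ (J - w))) := by
    refine (CH_mono_left hq0 (X' := fun ω => T ω % 2 ^ (J - w)) fun ω ω' _ _ hh => ?_).trans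
      (CH_mono_cond hq0 fun ω ω' _ _ hh => ?_)
    · have h1 := (Prod.ext_iff.1 hh).1
      have h2 := (Prod.ext_iff.1 (Prod.ext_iff.1 hh).2).1
      change T ω % 2 ^ (J - w) = T ω' % 2 ^ (J - w) at h1
      change T ω / 2 ^ (J - w) = T ω' / 2 ^ (J - w) at h2
      rw [← Nat.div_add_mod (T ω) (2 ^ (J - w)), ← Nat.div_add_mod (T ω') (2 ^ (J - w)), h1, h2]
    · exact Prod.ext (Prod.ext_iff.1 hh).2 (Prod.ext_iff.1 hh).1
  have e4 : CH q (fun ω => T ω / 2 ^ (J - w)) ln ≤ ((w - w₀ : ℕ) : ℝ) * Real.log 2 := by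
    refine (CH_mono_cond hq0 hln).trans ?_
    have h1 := CH_le_card hq0 hq.sum_one (fun ω => T ω / 2 ^ (J - w))
      (fun ω => T ω / 2 ^ (J - w₀))
      (fun v => Finset.Ico (v * 2 ^ (w - w₀)) ((v + 1) * 2 ^ (w - w₀))) (fun ω _ => by
        have h2 : T ω / 2 ^ (J - w₀) = T ω / 2 ^ (J - w) / 2 ^ (w - w₀) := by
          rw [Nat.div_div_eq_div_mul, ← pow_add]
          congr 2
          omega
        rw [Finset.mem_Ico, h2]
        constructor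
        · exact Nat.div_mul_le_self _ _
        · have := Nat.lt_div_mul_add (a := T ω / 2 ^ (J - w)) (b := 2 ^ (w - w₀)) (by positivity)
          rw [add_mul, one_mul]
          exact this)
    refine h1.trans (le_of_eq ?_)
    have h3 : ∀ v : ℕ, (Finset.Ico (v * 2 ^ (w - w₀)) ((v + 1) * 2 ^ (w - w₀))).card =
        2 ^ (w - w₀) := by
      intro v
      rw [Nat.card_Ico, add_mul, one_mul, Nat.add_sub_cancel_left]
    simp only [h3]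
    rw [Ex_const hq.sum_one]
    push_cast
    rw [Real.log_pow]
  have e5 : ((J - w₀ : ℕ) : ℝ) = ((J - w : ℕ) : ℝ) + ((w - w₀ : ℕ) : ℝ) := by
    rw [← Nat.cast_add]
    congr 1
    omega
  rw [e5] at hT
  linarith

end Pool.MIC.FruP
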