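import Pool.Agent.H31.M5.H2Xb

/-!
# One step of the chain of contexts, abstract variables

`b` and `b'` are the records of two consecutive windows, `t` is the exact time, `nu` and `nu'` are
the heights of the own sheet over the centres of the two boxes, `sh` is the shape of the own sheet
on the coarse box, `y'` is the position in the fine box and `sig` is a static record. All the
variables have arbitrary types: no sides, no frames. The geometry enters through the numbers `eN`
(nestedness of the records), `sN` (shape), `r` (recentring), `E` (the data of the line on good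
lines), `Dn` (entropy of the height), `rho` (the height given the static record).
-/

set_option autoImplicit false

namespace Pool.MIC.Stp

open Finset Real
open Pool.Agent.H49.Ent Pool.Agent.H32.Dense Pool.STK Pool.KVA Pool.K2S

open Classical in
/-- **One step of the chain**, abstract form. -/
theorem step {Ω B B' Y O S Sg T N N' : Type} [Fintype Ω] {p : Ω → ℝ} (hp : IsLaw p) (b : Ω → B)
    (b' : Ω → B') (t : Ω → T) (nu : Ω → N) (nu' : Ω → N') (sh : Ω → S) (y' : Ω → Y)
    (out : Ω → O) (sig : Ω → Sg) (g : Ω → Prop) {eN sN rho r E Dn Dy s : ℝ}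
    (hN : CH p b (fun ω => (b' ω, t ω)) ≤ eN)
    (hs : CH p sh (fun ω => (b ω, t ω)) ≤ sN)
    (hsig : Det p sig (fun ω => (b' ω, t ω))) (hrho : CH p nu' sig ≤ rho)
    (r1 : CH p nu' (fun ω => (sh ω, (nu ω, (b' ω, (b ω, t ω))))) ≤ r)
    (r2 : CH p nu (fun ω => (sh ω, (nu' ω, (b' ω, (b ω, t ω))))) ≤ r)
    (hE : ∀ ω, 0 < p ω → g ω →
      CH (cond p g True) out (fun ω => ((y' ω, b' ω), (b ω, t ω))) ≤ E)
    (hbad : ∀ ω, 0 < p ω → ¬ g ω →
      CH (cond p g False) nu (fun ω => ((y' ω, b' ω), (b ω, t ω))) ≤ Dn)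
    (hg : Pe p (fun ω => ¬ g ω) ≤ s) (hy : CH p y' (fun ω => (b' ω, (b ω, t ω))) ≤ Dy)
    (hE0 : 0 ≤ E) (hDn : 0 ≤ Dn) :
    MI p nu out (fun ω => (b ω, t ω)) ≤ CH p nu (fun ω => (b ω, t ω)) -
      CH p nu' (fun ω => (b' ω, t ω)) + (Dy - CH p y' sig) +
      (2 * eN + 2 * sN + rho + 2 * r + E + Real.log 2 + s * Dn) := by
  have hp0 := hp.nonneg
  have main := Pool.M5.h2s hp0 b b' nu nu' t y' out (e1 := eN) (e2 := sN + r)
    (e3 := Real.log 2 + E + s * Dn)
    (e4 := (Dy - CH p y' sig) + (eN + (rho + (sN + r)))) hN ?_ ?_ ?_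
  · linarith
  · -- recentring
    have c1 := CH_le_add hp0 nu' sh (fun ω => (nu ω, (b' ω, (b ω, t ω))))
    have c2 : CH p sh (fun ω => (nu ω, (b' ω, (b ω, t ω)))) ≤ sN := by
      refine (CH_mono_cond hp0 ?_).trans hs
      intro ω ω' _ _ h
      simp only [Prod.mk.injEq] at h ⊢
      tauto
    linarith
  · have hmb := Pool.M5.mi_bad hp nu out (fun ω => (y' ω, b' ω)) (fun ω => (b ω, t ω)) g
      (B := E) (E := Dn) hE hbad hE0
    have h5 := mul_le_mul_of_nonneg_right hg hDn
    linarith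
  · have h3 := Pool.M5.mi_full hp0 (fun ω => (b' ω, (b ω, t ω))) nu y' y' sig (D := Dy)
      (d := Dy - CH p y' sig) (e := eN + (rho + (sN + r))) ?_ hy (by linarith) ?_
    · exact h3
    · intro ω ω' _ _ h
      exact (Prod.ext_iff.1 h).1
    · have c1 : CH p (fun ω => (nu ω, (b' ω, (b ω, t ω)))) sig ≤
          CH p (fun ω => (nu ω, b ω)) sig := by
        refine CH_mono_left hp0 ?_
        intro ω ω' hω hω' h
        obtain ⟨h1, h2⟩ := Prod.ext_iff.1 h
        obtain ⟨h3, h4⟩ := Prod.ext_iff.1 h1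
        obtain ⟨h5, h6⟩ := Prod.ext_iff.1 (hsig ω ω' hω hω' h2)
        exact Prod.ext h3 (Prod.ext h5 (Prod.ext h4 h6))
      have c2 := CH_chain hp0 nu b sig
      have c3 : CH p b sig ≤ eN := (CH_mono_cond hp0 hsig).trans hN
      have c4 := CH_le_add hp0 nu nu' (fun ω => (b ω, sig ω))
      have c5 : CH p nu' (fun ω => (b ω, sig ω)) ≤ rho :=
        (CH_mono_cond hp0 fun _ _ _ _ h => (Prod.ext_iff.1 h).2).trans hrho
      have c6 := CH_le_add hp0 nu sh (fun ω => (nu' ω, (b ω, sig ω)))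
      have c7 : CH p sh (fun ω => (nu' ω, (b ω, sig ω))) ≤ sN := by
        refine (CH_mono_cond hp0 ?_).trans hs
        intro ω ω' hω hω' h
        obtain ⟨h1, h2⟩ := Prod.ext_iff.1 h
        obtain ⟨h3, h4⟩ := Prod.ext_iff.1 h2
        exact Prod.ext h3 (Prod.ext_iff.1 (hsig ω ω' hω hω' h4)).2
      have c8 : CH p nu (fun ω => (sh ω, (nu' ω, (b ω, sig ω)))) ≤ r := by
        refine (CH_mono_cond hp0 ?_).trans r2
        intro ω ω' hω hω' h
        obtain ⟨h1, h2⟩ := Prod.ext_iff.1 h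
        obtain ⟨h3, h4⟩ := Prod.ext_iff.1 h2
        obtain ⟨h5, h6⟩ := Prod.ext_iff.1 h4
        obtain ⟨h7, h8⟩ := Prod.ext_iff.1 (hsig ω ω' hω hω' h6)
        exact Prod.ext h1 (Prod.ext h3 (Prod.ext h7 (Prod.ext h5 h8)))
      linarith

end Pool.MIC.Stp
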