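import Pool.Agent.H20.MIC.Frm
import Pool.Agent.H95.GN.Uni

/-!
# A small polynomial on a natural box, from fullness

`uni_fr`: the position in the natural box of a triangular system which is a function of the context
is full given the context; a polynomial which is a function of the context is small at the
position. Then it is small on the whole natural box, off a small event.
-/

set_option autoImplicit false

namespace Pool.MIC.Frm

open Finset Real MvPolynomial
open Pool.Agent.H49.Ent Pool.Agent.H32.Dense Pool.STK Pool.STAT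
open Pool.BFL (Pb)

open Classical in
theorem Pb_supp {Ω : Type} [Fintype Ω] {p : Ω → ℝ} (hp : ∀ ω, 0 ≤ p ω) {A B : Ω → Prop}
    (h : ∀ ω, 0 < p ω → A ω → B ω) : Pb p A ≤ Pb p B := by
  unfold Pb
  refine Finset.sum_le_sum fun ω _ => ?_
  by_cases hA : A ω
  · rcases (hp ω).eq_or_lt with h0 | h0
    · rw [← h0]
      split_ifs <;> exact le_rfl
    · rw [if_pos hA, if_pos (h ω h0 hA)]
  · rw [if_neg hA]
    split_ifs
    · exact hp ω
    · exact le_rfl

/-- The point of the slice `z 0 = 0`. -/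
def ex1 {m : ℕ} (y : Fin m → ℝ) (j : ℕ) : ℝ :=
  if h : 1 ≤ j ∧ j - 1 < m then y ⟨j - 1, h.2⟩ else 0

theorem ex1_zero {m : ℕ} (y : Fin m → ℝ) : ex1 y 0 = 0 := by
  unfold ex1
  rw [dif_neg (by omega)]

theorem ex1_succ {m : ℕ} (y : Fin m → ℝ) {i : ℕ} (hi : i < m) : ex1 y (i + 1) = y ⟨i, hi⟩ := by
  unfold ex1
  rw [dif_pos (by constructor <;> omega)]
  rfl

/-- The slice of a polynomial. -/
noncomputable def sl (m : ℕ) : PN →ₐ[ℝ] Pool.BFL.Pl m :=
  aeval fun j => if h : 1 ≤ j ∧ j - 1 < m then X ⟨j - 1, h.2⟩ else 0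

theorem eval_sl {m : ℕ} (y : Fin m → ℝ) (F : PN) : eval y (sl m F) = eval (ex1 y) F := by
  unfold sl
  rw [aeval_def, eval₂_eq, map_sum, eval_eq]
  refine Finset.sum_congr rfl fun d _ => ?_
  rw [map_mul, map_prod, algebraMap_eq, eval_C]
  congr 1
  refine Finset.prod_congr rfl fun j _ => ?_
  rw [map_pow]
  congr 1
  unfold ex1
  split_ifs with h
  · rw [eval_X]
  · rw [map_zero]

theorem deg_sl (m : ℕ) (F : PN) : (sl m F).totalDegree ≤ F.totalDegree := by
  unfold sl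
  rw [aeval_def, eval₂_eq]
  refine totalDegree_finsetSum_le fun d hd => ?_
  refine (totalDegree_mul _ _).trans ?_
  have h0 : (algebraMap ℝ (Pool.BFL.Pl m) (coeff d F)).totalDegree = 0 := by
    rw [algebraMap_eq, totalDegree_C]
  rw [h0, zero_add]
  refine (totalDegree_finsetProd _ _).trans ?_
  refine (Finset.sum_le_sum (g := fun j => d j) fun j _ => ?_).trans (le_totalDegree hd)
  refine (totalDegree_pow _ _).trans ?_
  calc d j * _ ≤ d j * 1 := by
        refine Nat.mul_le_mul_left _ ?_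
        split_ifs
        · exact (totalDegree_X _).le
        · rw [totalDegree_zero]
          exact Nat.zero_le _
    _ = d j := Nat.mul_one _

/-- **The entropic Remez inequality on natural boxes.** -/
theorem uni_fr (m K : ℕ) (R : ℝ) (hR : 0 ≤ R) : ∃ C : ℝ, 1 ≤ C ∧
    ∀ (Ω Γ : Type) [Fintype Ω] (p : Ω → ℝ) (L : ℕ) (c : Ω → Γ) (g : Γ → ℕ → ℕ)
      (Φ : Γ → ℕ → PN) (D : Γ → PN) (x : Ω → ℕ → ℝ) (τ : Γ → ℝ) (θ η : ℝ),
      IsLaw p → (∀ v, TriN (Φ v)) → (∀ v, ∀ i < m + 1, (Φ v i).totalDegree ≤ K) →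
      (∀ v, (D v).vars ⊆ range (m + 1)) → (∀ v, (D v).totalDegree ≤ K) → (∀ v, 0 < τ v) →
      0 ≤ θ → 0 < η → η ≤ 1 →
      (∀ ω, 0 < p ω → nat (g (c ω)) (Φ (c ω)) (x ω) 0 = 0) →
      (∀ ω, 0 < p ω → ∀ i, 1 ≤ i → i ≤ m → |nat (g (c ω)) (Φ (c ω)) (x ω) i| ≤ 1) →
      m * (L * Real.log 2) - θ ≤
        CH p (fun ω (i : Fin m) => ⌊(2 : ℝ) ^ L * nat (g (c ω)) (Φ (c ω)) (x ω) (i + 1)⌋) c →
      C * (θ + 1) / η ≤ L * Real.log 2 →
      (∀ ω, 0 < p ω → |eval (x ω) (D (c ω))| ≤ τ (c ω)) →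
      Pb p (fun ω => ¬ ∀ b : ℕ → ℝ, nat (g (c ω)) (Φ (c ω)) b 0 = 0 →
        (∀ i, 1 ≤ i → i ≤ m → |nat (g (c ω)) (Φ (c ω)) b i| ≤ R) →
        |eval b (D (c ω))| ≤ Real.exp (C * (θ + 1) / η) * τ (c ω)) ≤ η := by
  classical
  obtain ⟨C, hC, h⟩ := Pool.UNJ.uni_core m (K * (K + 1) ^ (m + 1)) (R + 1) (by linarith)
  have hl3 : 0 ≤ Real.log 3 := Real.log_nonneg (by norm_num)
  set C' : ℝ := C * (m * Real.log 3 + 1) with hC'
  have hm0 : (0 : ℝ) ≤ m * Real.log 3 := by positivity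
  have hCC : C ≤ C' := by
    rw [hC']
    nlinarith
  refine ⟨C', by linarith, ?_⟩
  intro Ω Γ _ p L c g Φ D x τ θ η hp hΦ dΦ hv hd hτ hθ hη hη1 h0 h1 hH hL hD
  have hp0 := hp.nonneg
  set B : Ω → Fin m → ℝ := fun ω i => nat (g (c ω)) (Φ (c ω)) (x ω) (i + 1) with hB
  set Q : Γ → Pool.BFL.Pl m := fun v => sl m (bind₁ (nuc (g v) (Φ v)) (D v)) with hQ
  have hθ' : 0 ≤ θ + m * Real.log 3 := by linarith
  have hcmp : C * (θ + m * Real.log 3 + 1) ≤ C' * (θ + 1) := by
    rw [hC']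
    have h2 : θ + m * Real.log 3 + 1 ≤ (m * Real.log 3 + 1) * (θ + 1) := by nlinarith
    have h3 := mul_le_mul_of_nonneg_left h2 (by linarith : (0 : ℝ) ≤ C)
    linarith
  have hcmp' : C * (θ + m * Real.log 3 + 1) / η ≤ C' * (θ + 1) / η :=
    div_le_div_of_nonneg_right hcmp hη.le
  have key := h Ω Γ p L (fun _ => 0) B c Q (fun ω => 0 < p ω) τ (θ + m * Real.log 3) η hp
    (fun v => (deg_sl _ _).trans (deg_fr (hΦ v) (dΦ v) (hv v) (hd v))) hθ' hη hη1 hτ ?_ ?_
    (hcmp'.trans hL) ?_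
  · refine le_trans (Pb_supp hp0 fun ω hω0 hω => ?_) key
    intro hb
    refine hω fun b b0 b1 => ?_
    have e1 := hb (fun i => nat (g (c ω)) (Φ (c ω)) b (i + 1)) (fun i => ?_)
    · have e2 : eval (fun i : Fin m => nat (g (c ω)) (Φ (c ω)) b (i + 1)) (Q (c ω)) =
          eval b (D (c ω)) := by
        rw [hQ]
        simp only
        rw [eval_sl]
        have e3 : eval (ex1 fun i : Fin m => nat (g (c ω)) (Φ (c ω)) b (i + 1))
            (bind₁ (nuc (g (c ω)) (Φ (c ω))) (D (c ω))) =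
            eval (nat (g (c ω)) (Φ (c ω)) b) (bind₁ (nuc (g (c ω)) (Φ (c ω))) (D (c ω))) := by
          refine Pool.SYS35.eval_congr (vars_fr (hΦ _) (hv _)) fun i hi => ?_
          rcases Nat.eq_zero_or_pos i with rfl | hi'
          · rw [ex1_zero, b0]
          · obtain ⟨j, rfl⟩ : ∃ j, i = j + 1 := ⟨i - 1, by omega⟩
            rw [ex1_succ _ (by omega)]
        rw [e3, eval_fr (hΦ _)]
      rw [e2] at e1
      refine e1.trans (mul_le_mul_of_nonneg_right (Real.exp_le_exp.2 hcmp') (hτ _).le)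
    · have e4 := b1 (i + 1) (by omega) (by have := i.2; omega)
      have e5 := h1 ω hω0 (i + 1) (by omega) (by have := i.2; omega)
      rw [pow_zero, div_one]
      have e6 := abs_sub (nat (g (c ω)) (Φ (c ω)) b (i + 1)) (B ω i)
      have e7 : |B ω i| ≤ 1 := e5
      linarith
  · -- entropy
    have e1 : (fun ω => Pool.UNJ.cel (fun i => (fun _ : Fin m => 0) i + L) (B ω)) =
        fun ω (i : Fin m) => ⌊(2 : ℝ) ^ L * nat (g (c ω)) (Φ (c ω)) (x ω) (i + 1)⌋ := by
      funext ω i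
      unfold Pool.UNJ.cel
      simp only [Nat.zero_add, hB]
    rw [e1]
    have e2 := CH_le_add hp0
      (fun ω (i : Fin m) => ⌊(2 : ℝ) ^ L * nat (g (c ω)) (Φ (c ω)) (x ω) (i + 1)⌋)
      (fun ω => Pool.UNJ.cel (fun _ : Fin m => 0) (B ω)) c
    have e3 : CH p (fun ω => Pool.UNJ.cel (fun _ : Fin m => 0) (B ω)) c ≤ m * Real.log 3 := by
      have := CH_le_card hp.nonneg hp.sum_one (fun ω => Pool.UNJ.cel (fun _ : Fin m => 0) (B ω)) c
        (fun _ => Fintype.piFinset fun _ => Finset.Icc (-1 : ℤ) 1) (fun ω hω => by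
          rw [Fintype.mem_piFinset]
          intro i
          rw [Finset.mem_Icc]
          have e5 := h1 ω hω (i + 1) (by omega) (by have := i.2; omega)
          have e6 := abs_le.1 e5
          unfold Pool.UNJ.cel
          rw [pow_zero, one_mul]
          constructor
          · rw [Int.le_floor]
            push_cast
            exact e6.1
          · have : ⌊B ω i⌋ ≤ ⌊(1 : ℝ)⌋ := Int.floor_le_floor e6.2
            simpa using this)
      refine this.trans (le_of_eq ?_)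
      rw [Ex_const hp.sum_one, Fintype.card_piFinset, Finset.prod_const, Finset.card_univ,
        Fintype.card_fin, Int.card_Icc]
      have e7 : ((1 + 1 - (-1 : ℤ)).toNat : ℕ) = 3 := by norm_num; rfl
      rw [e7]
      push_cast
      rw [Real.log_pow]
    linarith
  · have : Pb p (fun ω => ¬ 0 < p ω) = 0 := by
      unfold Pb
      refine Finset.sum_eq_zero fun ω _ => ?_
      by_cases hω : 0 < p ω
      · rw [if_neg (by simpa using hω)]
      · rw [if_pos hω]
        exact le_antisymm (not_lt.1 hω) (hp0 ω)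
    rw [this]
    positivity
  · intro ω hω
    rw [hQ]
    simp only
    rw [eval_sl]
    have e3 : eval (ex1 (B ω)) (bind₁ (nuc (g (c ω)) (Φ (c ω))) (D (c ω))) =
        eval (nat (g (c ω)) (Φ (c ω)) (x ω)) (bind₁ (nuc (g (c ω)) (Φ (c ω))) (D (c ω))) := by
      refine Pool.SYS35.eval_congr (vars_fr (hΦ _) (hv _)) fun i hi => ?_
      rcases Nat.eq_zero_or_pos i with rfl | hi'
      · rw [ex1_zero, h0 ω hω]
      · obtain ⟨j, rfl⟩ : ∃ j, i = j + 1 := ⟨i - 1, by omega⟩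
        rw [ex1_succ _ (by omega)]
    rw [e3, eval_fr (hΦ _)]
    exact hD ω hω

end Pool.MIC.Frm
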